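import Pool.Agent.V1172.BK.Half

/-!
Boundary rigidity for holomorphic functions of two variables in the right half plane with values in
the closed right half plane.
-/

set_option autoImplicit false

open Set Filter Topology Metric

namespace Pool.Agent.V1172.BKn

open Pool.Agent.V1172.BK

/-- Rigidity with a bound on the real part only. -/
theorem rigid_re (e : ℂ → ℂ) (he : DifferentiableOn ℂ e Hp) (hpos : ∀ z ∈ Hp, 0 ≤ (e z).re)
    (hlim : ∀ ε : ℝ, 0 < ε → ∃ N : ℝ, ∀ r : ℝ, N ≤ r → r * (e r).re ≤ ε) :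
    ∀ x ∈ Hp, e x = e 1 := by
  have hre : ∀ w ∈ Hp, (e w).re = 0 := by
    intro w hw
    have hw' : 0 < w.re := hw
    by_contra hne
    have hpw : 0 < (e w).re := lt_of_le_of_ne (hpos w hw) (Ne.symm hne)
    obtain ⟨N, hN⟩ := hlim (w.re * (e w).re / 8) (by positivity)
    obtain ⟨r, hrN, hr1, hrw⟩ : ∃ r : ℝ, N ≤ r ∧ 0 < r ∧ ‖w‖ ≤ r :=
      ⟨max N (max 1 ‖w‖), le_max_left _ _,
        lt_of_lt_of_le one_pos ((le_max_left _ _).trans (le_max_right _ _)),
        (le_max_right _ _).trans (le_max_right _ _)⟩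
    have h1 := hN r hrN
    have h2 := harnack e he hpos r w (ofReal_mem hr1) hw
    rw [Complex.ofReal_re] at h2
    have h3 : ‖(r : ℂ) + (starRingEnd ℂ) w‖ ≤ 2 * r := by
      refine (norm_add_le _ _).trans ?_
      rw [Complex.norm_real, Real.norm_eq_abs, abs_of_pos hr1, RCLike.norm_conj]
      linarith
    have h4 : (e r).re * ‖(r : ℂ) + (starRingEnd ℂ) w‖ ^ 2 ≤ (e r).re * (2 * r) ^ 2 :=
      mul_le_mul_of_nonneg_left (pow_le_pow_left₀ (norm_nonneg _) h3 2)
        (hpos _ (ofReal_mem hr1))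
    have h5 : r * (w.re * (e w).re) ≤ r * (4 * (r * (e r).re)) := by
      calc r * (w.re * (e w).re) = r * w.re * (e w).re := by ring
        _ ≤ (e r).re * (2 * r) ^ 2 := h2.trans h4
        _ = _ := by ring
    have h6 := le_of_mul_le_mul_left h5 hr1
    have h7 : 0 < w.re * (e w).re := by positivity
    linarith
  have han : AnalyticOnNhd ℂ e Hp := he.analyticOnNhd isOpen_Hp
  rcases han.is_constant_or_isOpen convex_Hp.isPreconnected with ⟨c, hc⟩ | hopen
  · intro x hx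
    rw [hc x hx, hc 1 (by simp [Hp])]
  · exfalso
    have h1 := hopen Hp Subset.rfl isOpen_Hp
    have h2 : e 1 ∈ e '' Hp := ⟨1, by simp [Hp], rfl⟩
    obtain ⟨ε, hε, hsub⟩ := Metric.isOpen_iff.1 h1 (e 1) h2
    have h3 : e 1 + ((ε / 2 : ℝ) : ℂ) ∈ ball (e 1) ε := by
      rw [mem_ball_iff_norm, add_sub_cancel_left, Complex.norm_real, Real.norm_eq_abs,
        abs_of_pos (by linarith)]
      linarith
    obtain ⟨y, hy, hye⟩ := hsub h3
    have h4 := hre y hy
    have h5 := hre 1 (by simp [Hp])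
    rw [hye] at h4
    simp [h5] at h4
    linarith

theorem inv_mem {y : ℂ} (hy : y ∈ Hp) : y⁻¹ ∈ Hp := by
  have hy' : 0 < y.re := hy
  show 0 < (y⁻¹).re
  rw [Complex.inv_re]
  have : 0 < Complex.normSq y := Complex.normSq_pos.2 (by rintro rfl; simp at hy')
  positivity

theorem ne_zero_of_mem {y : ℂ} (hy : y ∈ Hp) : y ≠ 0 := by
  rintro rfl
  have hy' : (0 : ℝ) < (0 : ℂ).re := hy
  simp at hy'

/-- One sided bounds near the boundary point `0`, using discs tangent to the boundary. -/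
theorem tangent (α : ℂ → ℂ) (hα : DifferentiableOn ℂ α Hp) (η ρ : ℝ) (hη : 0 ≤ η)
    (hup : ∀ x ∈ Hp, ‖x‖ < ρ → (α x).re ≤ η * ‖x‖ ^ 3)
    (hlim : ∀ ε : ℝ, 0 < ε → ∃ δ > 0, ∀ s : ℝ, 0 < s → s < δ → |(α s).re| ≤ ε * s)
    (r : ℝ) (hr : 0 < r) (hrρ : 2 * r < ρ) : -(α r).re ≤ 4 * η * r ^ 3 := by
  obtain ⟨c, hc⟩ : ∃ c : ℝ, c = 1 / (2 * r) := ⟨_, rfl⟩
  have hc0 : 0 < c := by rw [hc]; positivity
  have h2rc : 2 * r * c = 1 := by rw [hc]; field_simp
  let V : ℂ → ℂ := fun x => (4 * η * r ^ 2 : ℝ) * x - α x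
  let W : ℂ → ℂ := fun y => V (y + c)⁻¹
  have hyc : ∀ y ∈ Hp, y + (c : ℂ) ∈ Hp := by
    intro y hy
    have hy' : 0 < y.re := hy
    show 0 < (y + (c : ℂ)).re
    simp
    linarith
  have hWd : DifferentiableOn ℂ W Hp := by
    intro y hy
    have h1 : DifferentiableAt ℂ (fun y : ℂ => (y + c)⁻¹) y :=
      DifferentiableAt.fun_inv (by fun_prop) (ne_zero_of_mem (hyc y hy))
    have h2 : DifferentiableAt ℂ α (y + c)⁻¹ :=
      (hα _ (inv_mem (hyc y hy))).differentiableAt (isOpen_Hp.mem_nhds (inv_mem (hyc y hy)))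
    have h3 : DifferentiableAt ℂ (fun y : ℂ => α (y + c)⁻¹) y :=
      DifferentiableAt.comp y (f := fun y : ℂ => (y + c)⁻¹) h2 h1
    exact ((h1.const_mul _).sub h3).differentiableWithinAt
  have hWpos : ∀ y ∈ Hp, 0 ≤ (W y).re := by
    intro y hy
    have hy' : 0 < y.re := hy
    have hm := hyc y hy
    obtain ⟨x, hx⟩ : ∃ x : ℂ, x = (y + (c : ℂ))⁻¹ := ⟨_, rfl⟩
    have hxm : x ∈ Hp := by rw [hx]; exact inv_mem hm
    have hxre : 0 < x.re := hxm
    have hn : 0 < Complex.normSq (y + c) := Complex.normSq_pos.2 (ne_zero_of_mem hm)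
    have h1 : ‖x‖ ^ 2 ≤ 2 * r * x.re := by
      rw [← Complex.normSq_eq_norm_sq, hx, Complex.inv_re, map_inv₀]
      rw [← mul_div_assoc, le_div_iff₀ hn, inv_mul_cancel₀ hn.ne']
      have : (y + (c : ℂ)).re = y.re + c := by simp
      rw [this]
      nlinarith
    have h2 : ‖x‖ ≤ 2 * r := by
      have h3 : x.re ≤ ‖x‖ := Complex.re_le_norm x
      have h4 : 0 < ‖x‖ := by linarith
      have h5 : ‖x‖ * ‖x‖ ≤ ‖x‖ * (2 * r) := by
        nlinarith
      exact le_of_mul_le_mul_left h5 h4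
    have h6 := hup x hxm (by linarith)
    have h7 : ‖x‖ ^ 3 ≤ 4 * r ^ 2 * x.re := by
      calc ‖x‖ ^ 3 = ‖x‖ * ‖x‖ ^ 2 := by ring
        _ ≤ (2 * r) * (2 * r * x.re) := mul_le_mul h2 h1 (by positivity) (by positivity)
        _ = _ := by ring
    show 0 ≤ (((4 * η * r ^ 2 : ℝ) : ℂ) * (y + (c : ℂ))⁻¹ - α (y + (c : ℂ))⁻¹).re
    rw [← hx, Complex.sub_re, Complex.re_ofReal_mul]
    nlinarith [mul_le_mul_of_nonneg_left h7 hη]
  -- Harnack
  have hkey : ∀ s : ℝ, 0 < s → s < r → c * (1 - c * s) * (V r).re ≤ (V s).re / s := by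
    intro s hs hsr
    have hsc : 0 < 1 / s - c := by
      rw [sub_pos, hc]
      apply one_div_lt_one_div_of_lt hs
      linarith
    have h1 := harnack W hWd hWpos ((1 / s - c : ℝ) : ℂ) (c : ℂ) (ofReal_mem hsc) (ofReal_mem hc0)
    rw [Complex.ofReal_re, Complex.ofReal_re, Complex.conj_ofReal] at h1
    have e1 : W (c : ℂ) = V r := by
      show V ((c : ℂ) + c)⁻¹ = V r
      congr 1
      rw [hc]
      push_cast
      have : (r : ℂ) ≠ 0 := by exact_mod_cast hr.ne'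
      field_simp
      ring
    have e2 : W ((1 / s - c : ℝ) : ℂ) = V s := by
      show V (((1 / s - c : ℝ) : ℂ) + c)⁻¹ = V s
      congr 1
      push_cast
      simp
    have e3 : ‖((1 / s - c : ℝ) : ℂ) + (c : ℂ)‖ = 1 / s := by
      have : ((1 / s - c : ℝ) : ℂ) + (c : ℂ) = ((1 / s : ℝ) : ℂ) := by push_cast; ring
      rw [this, Complex.norm_real, Real.norm_eq_abs, abs_of_pos (by positivity)]
    rw [e1, e2, e3] at h1
    have h2 := mul_le_mul_of_nonneg_left h1 hs.le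
    calc c * (1 - c * s) * (V r).re = s * ((1 / s - c) * c * (V r).re) := by field_simp
      _ ≤ s * ((V s).re * (1 / s) ^ 2) := h2
      _ = (V s).re / s := by field_simp
  have hVs : ∀ s : ℝ, (V s).re = 4 * η * r ^ 2 * s - (α s).re := by
    intro s
    show ((((4 * η * r ^ 2 : ℝ)) : ℂ) * (s : ℂ) - α s).re = _
    rw [Complex.sub_re, Complex.re_ofReal_mul, Complex.ofReal_re]
  have hVr : c * (V r).re ≤ 4 * η * r ^ 2 := by
    by_contra hneg
    push Not at hneg
    obtain ⟨γ, hγ0, hγ⟩ : ∃ γ : ℝ, 0 < γ ∧ 4 * η * r ^ 2 + γ < c * (V r).re :=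
      ⟨(c * (V r).re - 4 * η * r ^ 2) / 2, by linarith, by linarith⟩
    obtain ⟨δ, hδ, hδ'⟩ := hlim (γ / 2) (by linarith)
    have hVr0 : 0 < (V r).re := by
      have : 0 < c * (V r).re := by
        have : 0 ≤ 4 * η * r ^ 2 := by positivity
        linarith
      exact (mul_pos_iff_of_pos_left hc0).1 this
    obtain ⟨s, hs0, hs1, hs2, hs3⟩ : ∃ s : ℝ, 0 < s ∧ s < δ ∧ s < r ∧
        c * (c * s) * (V r).re ≤ γ / 4 := by
      refine ⟨min (min (δ / 2) (r / 2)) (γ / 4 / (c * c * (V r).re)), ?_, ?_, ?_, ?_⟩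
      · refine lt_min (lt_min (by linarith) (by linarith)) (by positivity)
      · exact ((min_le_left _ _).trans (min_le_left _ _)).trans_lt (by linarith)
      · exact ((min_le_left _ _).trans (min_le_right _ _)).trans_lt (by linarith)
      · have h1 : min (min (δ / 2) (r / 2)) (γ / 4 / (c * c * (V r).re)) ≤
            γ / 4 / (c * c * (V r).re) := min_le_right _ _
        rw [le_div_iff₀ (by positivity)] at h1
        nlinarith
    have h1 := hkey s hs0 hs2
    have h2 := hδ' s hs0 hs1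
    rw [hVs s, sub_div, mul_div_assoc, div_self hs0.ne', mul_one] at h1
    have h3 : -((α s).re / s) ≤ γ / 2 := by
      rw [← neg_div, div_le_iff₀ hs0]
      exact (neg_le_abs _).trans h2
    have h4 : c * (1 - c * s) * (V r).re = c * (V r).re - c * (c * s) * (V r).re := by ring
    linarith
  have h1 : (V r).re ≤ 8 * η * r ^ 3 := by
    have h2 := mul_le_mul_of_nonneg_left hVr (by positivity : (0 : ℝ) ≤ 2 * r)
    have h3 : 2 * r * (c * (V r).re) = (V r).re := by
      rw [← mul_assoc, h2rc, one_mul]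
    rw [h3] at h2
    nlinarith
  rw [hVs r] at h1
  nlinarith

/-- A Burns–Krantz theorem for the right half plane and the boundary point `0`. -/
theorem bk_half (h : ℂ → ℂ) (hd : DifferentiableOn ℂ h Hp) (hpos : ∀ z ∈ Hp, 0 ≤ (h z).re)
    (A : ℝ) (hA : 0 < A)
    (h3 : ∀ ε : ℝ, 0 < ε → ∃ δ > 0, ∀ r : ℝ, 0 < r → r < δ → A * r - ε * r ^ 3 ≤ (h r).re)
    (h2 : ∀ ε : ℝ, 0 < ε → ∃ δ > 0, ∀ r : ℝ, 0 < r → r < δ → ‖h r - A * r‖ ≤ ε * r ^ 2) :
    ∀ x ∈ Hp, h x = A * x := by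
  -- the real part is positive
  have hpos' : ∀ z ∈ Hp, 0 < (h z).re := by
    intro z hz
    have hz' : 0 < z.re := hz
    obtain ⟨δ, hδ, hδ'⟩ := h3 1 one_pos
    obtain ⟨r, hr0, hrδ, hr1⟩ : ∃ r : ℝ, 0 < r ∧ r < δ ∧ r ^ 2 < A := by
      refine ⟨min (δ / 2) (min (A / 2) (1 / 2)), ?_, ?_, ?_⟩
      · exact lt_min (by linarith) (lt_min (by linarith) (by norm_num))
      · exact (min_le_left _ _).trans_lt (by linarith)
      · have h1 : min (δ / 2) (min (A / 2) (1 / 2)) ≤ A / 2 :=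
          (min_le_right _ _).trans (min_le_left _ _)
        have h2 : min (δ / 2) (min (A / 2) (1 / 2)) ≤ 1 / 2 :=
          (min_le_right _ _).trans (min_le_right _ _)
        have h3 : 0 < min (δ / 2) (min (A / 2) (1 / 2)) :=
          lt_min (by linarith) (lt_min (by linarith) (by norm_num))
        nlinarith
    have h4 : 0 < (h r).re := by
      have h5 := hδ' r hr0 hrδ
      have h6 : A * r - 1 * r ^ 3 = r * (A - r ^ 2) := by ring
      rw [h6] at h5
      have : 0 < r * (A - r ^ 2) := mul_pos hr0 (by linarith)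
      linarith
    have h7 := harnack h hd hpos z r hz (ofReal_mem hr0)
    rw [Complex.ofReal_re] at h7
    have h8 : 0 < z.re * r * (h r).re := by positivity
    have h9 : 0 < (h z).re * ‖z + (starRingEnd ℂ) (r : ℂ)‖ ^ 2 := by linarith
    by_contra hneg
    push Not at hneg
    have := mul_nonpos_of_nonpos_of_nonneg hneg (sq_nonneg ‖z + (starRingEnd ℂ) (r : ℂ)‖)
    linarith
  have hne : ∀ z ∈ Hp, h z ≠ 0 := fun z hz => ne_zero_of_mem (hpos' z hz)
  let g : ℂ → ℂ := fun y => A * (h y⁻¹)⁻¹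
  have hgd : DifferentiableOn ℂ g Hp := by
    intro y hy
    have e1 : DifferentiableAt ℂ (fun y : ℂ => y⁻¹) y :=
      DifferentiableAt.fun_inv (by fun_prop) (ne_zero_of_mem hy)
    have e2 : DifferentiableAt ℂ h y⁻¹ :=
      (hd _ (inv_mem hy)).differentiableAt (isOpen_Hp.mem_nhds (inv_mem hy))
    have e3 : DifferentiableAt ℂ (fun y : ℂ => h y⁻¹) y :=
      DifferentiableAt.comp y (f := fun y : ℂ => y⁻¹) e2 e1
    exact ((DifferentiableAt.fun_inv e3 (hne _ (inv_mem hy))).const_mul _).differentiableWithinAt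
  have hgpos : ∀ y ∈ Hp, 0 ≤ (g y).re := by
    intro y hy
    show 0 ≤ ((A : ℂ) * (h y⁻¹)⁻¹).re
    rw [Complex.re_ofReal_mul]
    have : 0 < ((h y⁻¹)⁻¹).re := inv_mem (hpos' _ (inv_mem hy))
    positivity
  have hglim : Tendsto (fun r : ℝ => (g r).re / r) atTop (𝓝 1) := by
    -- `r / (g r) = r h(1/r) / A → 1`
    have e1 : Tendsto (fun r : ℝ => (r : ℂ) * h ((r : ℂ)⁻¹) / A) atTop (𝓝 1) := by
      rw [Metric.tendsto_atTop]
      intro ε hε
      obtain ⟨δ, hδ, hδ'⟩ := h2 (A * ε / 2) (by positivity)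
      refine ⟨max 1 (2 / δ), fun r hr => ?_⟩
      have hr1 : 1 ≤ r := (le_max_left _ _).trans hr
      have hr2 : 2 / δ ≤ r := (le_max_right _ _).trans hr
      have hr0 : 0 < r := by linarith
      have h4 : r⁻¹ < δ := by
        rw [div_le_iff₀ hδ] at hr2
        rw [inv_lt_iff_one_lt_mul₀ hr0]
        linarith
      have h5 := hδ' r⁻¹ (by positivity) h4
      rw [Complex.ofReal_inv] at h5
      have hrc : (r : ℂ) ≠ 0 := by exact_mod_cast hr0.ne'
      have hAc : (A : ℂ) ≠ 0 := by exact_mod_cast hA.ne'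
      have h6 : (r : ℂ) * h ((r : ℂ)⁻¹) / A - 1 = r / A * (h ((r : ℂ)⁻¹) - A * (r : ℂ)⁻¹) := by
        field_simp
      rw [dist_eq_norm, h6, norm_mul, norm_div, Complex.norm_real, Complex.norm_real,
        Real.norm_eq_abs, Real.norm_eq_abs, abs_of_pos hr0, abs_of_pos hA]
      calc r / A * ‖h ((r : ℂ)⁻¹) - A * (r : ℂ)⁻¹‖ ≤ r / A * (A * ε / 2 * r⁻¹ ^ 2) :=
            mul_le_mul_of_nonneg_left h5 (by positivity)
        _ = ε / 2 / r := by field_simp
        _ ≤ ε / 2 := div_le_self (by positivity) hr1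
        _ < ε := by linarith
    have e2 : Tendsto (fun r : ℝ => ((r : ℂ) * h ((r : ℂ)⁻¹) / A)⁻¹) atTop (𝓝 (1 : ℂ)) := by
      have := e1.inv₀ one_ne_zero
      rwa [inv_one] at this
    have e3 : Tendsto (fun r : ℝ => (((r : ℂ) * h ((r : ℂ)⁻¹) / A)⁻¹).re) atTop
        (𝓝 (1 : ℂ).re) := (Complex.continuous_re.tendsto _).comp e2
    rw [Complex.one_re] at e3
    refine e3.congr' ?_
    filter_upwards [eventually_gt_atTop 0] with r hr0
    have hrc : (r : ℂ) ≠ 0 := by exact_mod_cast hr0.ne'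
    have h5 : ((r : ℂ) * h ((r : ℂ)⁻¹) / A)⁻¹ = g r / (r : ℂ) := by
      show _ = (A : ℂ) * (h ((r : ℂ)⁻¹))⁻¹ / (r : ℂ)
      rw [inv_div, div_eq_mul_inv, mul_inv]
      ring
    rw [h5, Complex.div_ofReal_re]
  have hjul : ∀ y ∈ Hp, y.re ≤ (g y).re := fun y hy => julia g hgd hgpos hglim y hy
  have hconst := rigid_re (fun y => g y - y) (hgd.sub differentiableOn_id) ?_ ?_
  · -- conclusion
    obtain ⟨c, hc⟩ : ∃ c : ℂ, c = g 1 - 1 := ⟨_, rfl⟩
    have hg : ∀ y ∈ Hp, g y = y + c := by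
      intro y hy
      have := hconst y hy
      rw [hc]
      linear_combination this
    have hAc : (A : ℂ) ≠ 0 := by exact_mod_cast hA.ne'
    have hh : ∀ x ∈ Hp, x⁻¹ + c ≠ 0 ∧ h x = A / (x⁻¹ + c) := by
      intro x hx
      have e1 := hg x⁻¹ (inv_mem hx)
      have e2 : g x⁻¹ = A * (h x)⁻¹ := by
        show (A : ℂ) * (h (x⁻¹)⁻¹)⁻¹ = _
        rw [inv_inv]
      rw [e2] at e1
      have hhx := hne x hx
      have hne' : x⁻¹ + c ≠ 0 := by
        rw [← e1]
        exact mul_ne_zero hAc (inv_ne_zero hhx)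
      refine ⟨hne', ?_⟩
      rw [← e1]
      field_simp
    have hc0 : c = 0 := by
      by_contra hcne
      have hcn : 0 < ‖c‖ := norm_pos_iff.2 hcne
      obtain ⟨δ, hδ, hδ'⟩ := h2 (A * ‖c‖ / 4) (by positivity)
      obtain ⟨r, hr0, hrδ, hr1⟩ : ∃ r : ℝ, 0 < r ∧ r < δ ∧ ‖c‖ * r ≤ 1 := by
        refine ⟨min (δ / 2) (1 / ‖c‖), lt_min (by linarith) (by positivity),
          (min_le_left _ _).trans_lt (by linarith), ?_⟩
        have := min_le_right (δ / 2) (1 / ‖c‖)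
        rw [le_div_iff₀ hcn] at this
        linarith
      have h4 := hδ' r hr0 hrδ
      obtain ⟨h5, h6⟩ := hh r (ofReal_mem hr0)
      have hrc : (r : ℂ) ≠ 0 := by exact_mod_cast hr0.ne'
      have h7 : (1 : ℂ) + c * r ≠ 0 := by
        have : (1 : ℂ) + c * r = r * ((r : ℂ)⁻¹ + c) := by field_simp
        rw [this]
        exact mul_ne_zero hrc h5
      have h8 : h r - A * r = -(A * c * r ^ 2) / (1 + c * r) := by
        rw [h6]
        have : (r : ℂ)⁻¹ + c = (1 + c * r) / r := by field_simp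
        rw [this]
        field_simp
        ring
      rw [h8, norm_div, norm_neg, norm_mul, norm_mul, norm_pow, Complex.norm_real,
        Complex.norm_real, Real.norm_eq_abs, Real.norm_eq_abs, abs_of_pos hr0, abs_of_pos hA,
        div_le_iff₀ (norm_pos_iff.2 h7)] at h4
      have h9 : ‖(1 : ℂ) + c * r‖ ≤ 2 := by
        refine (norm_add_le _ _).trans ?_
        rw [norm_one, norm_mul, Complex.norm_real, Real.norm_eq_abs, abs_of_pos hr0]
        linarith
      have h10 : A * ‖c‖ / 4 * r ^ 2 * ‖(1 : ℂ) + c * r‖ ≤ A * ‖c‖ / 4 * r ^ 2 * 2 :=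
        mul_le_mul_of_nonneg_left h9 (by positivity)
      have h11 : 0 < A * ‖c‖ * r ^ 2 := by positivity
      linarith
    intro x hx
    obtain ⟨h5, h6⟩ := hh x hx
    have hx0 := ne_zero_of_mem hx
    rw [h6, hc0, add_zero]
    field_simp
  · intro z hz
    have := hjul z hz
    simp only [Complex.sub_re]
    linarith
  · intro ε hε
    obtain ⟨δ, hδ, hδ'⟩ := h3 (A * ε / 2) (by positivity)
    refine ⟨max (max 1 (2 / δ)) ε, fun r hr => ?_⟩
    have hr1 : 1 ≤ r := ((le_max_left _ _).trans (le_max_left _ _)).trans hr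
    have hr2 : 2 / δ ≤ r := ((le_max_right _ _).trans (le_max_left _ _)).trans hr
    have hr3 : ε ≤ r := (le_max_right _ _).trans hr
    have hr0 : 0 < r := by linarith
    have h4 : r⁻¹ < δ := by
      rw [div_le_iff₀ hδ] at hr2
      rw [inv_lt_iff_one_lt_mul₀ hr0]
      linarith
    have h5 := hδ' r⁻¹ (by positivity) h4
    rw [Complex.ofReal_inv] at h5
    obtain ⟨z, hz⟩ : ∃ z : ℂ, z = h ((r : ℂ)⁻¹) := ⟨_, rfl⟩
    have hzpos : 0 < z.re := by rw [hz]; exact hpos' _ (inv_mem (ofReal_mem hr0))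
    rw [← hz] at h5
    have hgr : (g r).re ≤ A / z.re := by
      show ((A : ℂ) * (h (r : ℂ)⁻¹)⁻¹).re ≤ _
      rw [Complex.re_ofReal_mul, ← hz, Complex.inv_re, div_eq_mul_inv A]
      refine mul_le_mul_of_nonneg_left ?_ hA.le
      rw [div_le_iff₀ (Complex.normSq_pos.2 (ne_zero_of_mem hzpos)), Complex.normSq_apply,
        inv_mul_eq_div, le_div_iff₀ hzpos]
      nlinarith [sq_nonneg z.im]
    have hlow : A / r * (1 - ε / (2 * r ^ 2)) ≤ z.re := by
      refine le_trans (le_of_eq ?_) h5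
      field_simp
    have hθ : 0 ≤ ε / (2 * r ^ 2) ∧ ε / (2 * r ^ 2) ≤ 1 / 2 := by
      refine ⟨by positivity, ?_⟩
      rw [div_le_div_iff₀ (by positivity) (by norm_num)]
      nlinarith
    have hlow' : 0 < A / r * (1 - ε / (2 * r ^ 2)) := mul_pos (by positivity) (by linarith [hθ.2])
    have h6 : (g r).re ≤ r / (1 - ε / (2 * r ^ 2)) := by
      refine hgr.trans ((div_le_div_of_nonneg_left hA.le hlow' hlow).trans (le_of_eq ?_))
      have : (1 - ε / (2 * r ^ 2)) ≠ 0 := by linarith [hθ.2]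
      field_simp
    have h7 : r / (1 - ε / (2 * r ^ 2)) ≤ r * (1 + 2 * (ε / (2 * r ^ 2))) := by
      rw [div_le_iff₀ (by linarith [hθ.2])]
      have : r * (1 + 2 * (ε / (2 * r ^ 2))) * (1 - ε / (2 * r ^ 2)) - r =
          r * (ε / (2 * r ^ 2)) * (1 - 2 * (ε / (2 * r ^ 2))) := by ring
      have h8 : 0 ≤ r * (ε / (2 * r ^ 2)) * (1 - 2 * (ε / (2 * r ^ 2))) :=
        mul_nonneg (mul_nonneg hr0.le hθ.1) (by linarith [hθ.2])
      linarith
    have h8 : r * (1 + 2 * (ε / (2 * r ^ 2))) = r + ε / r := by field_simp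
    show r * (g r - r).re ≤ ε
    rw [Complex.sub_re, Complex.ofReal_re]
    have h9 : (g r).re - r ≤ ε / r := by linarith
    calc r * ((g r).re - r) ≤ r * (ε / r) := mul_le_mul_of_nonneg_left h9 hr0.le
      _ = ε := by field_simp

end Pool.Agent.V1172.BKn
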