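import Pool.Agent.V1172.BKn.Multi

/-!
The symmetrized polydisc and its magic functions.
-/

set_option autoImplicit false

open Set Filter Topology Metric

namespace Pool.Agent.V1172.BKn

open Pool.Agent.V1172.BK

/-- The elementary symmetric polynomial of degree `k`. -/
noncomputable def esy {n : ℕ} (k : ℕ) (l : Fin n → ℂ) : ℂ :=
  ∑ I ∈ Finset.powersetCard k (Finset.univ : Finset (Fin n)), ∏ i ∈ I, l i

/-- The symmetrization map. -/
noncomputable def piN {n : ℕ} (l : Fin n → ℂ) : Fin n → ℂ := fun k => esy ((k : ℕ) + 1) l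

/-- The symmetrized polydisc. -/
def Gn (n : ℕ) : Set (Fin n → ℂ) := {z | ∃ l : Fin n → ℂ, (∀ i, ‖l i‖ < 1) ∧ z = piN l}

/-- The polynomial `1 - z₁ u + z₂ u² - …`. -/
noncomputable def Q {n : ℕ} (z : Fin n → ℂ) (u : ℂ) : ℂ :=
  1 + ∑ k : Fin n, (-1) ^ ((k : ℕ) + 1) * z k * u ^ ((k : ℕ) + 1)

/-- The derivative of `Q z`. -/
noncomputable def Qd {n : ℕ} (z : Fin n → ℂ) (u : ℂ) : ℂ :=
  ∑ k : Fin n, (-1) ^ ((k : ℕ) + 1) * z k * (((k : ℕ) + 1 : ℕ) * u ^ (k : ℕ))

theorem Q_piN {n : ℕ} (l : Fin n → ℂ) (u : ℂ) : Q (piN l) u = ∏ i, (1 - u * l i) := by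
  have h1 : ∏ i, (1 - u * l i) = ∏ i, (1 + (-u) * l i) :=
    Finset.prod_congr rfl fun i _ => by ring
  have h2 : ∀ j : ℕ, ∑ t ∈ Finset.powersetCard j (Finset.univ : Finset (Fin n)),
      ∏ i ∈ t, (-u) * l i = (-u) ^ j * esy j l := by
    intro j
    rw [esy, Finset.mul_sum]
    refine Finset.sum_congr rfl fun t ht => ?_
    rw [Finset.prod_mul_distrib, Finset.prod_const, (Finset.mem_powersetCard.1 ht).2]
  rw [h1, Finset.prod_one_add, Finset.sum_powerset, Finset.card_univ, Fintype.card_fin,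
    Finset.sum_range_succ']
  simp only [h2]
  have h3 : (-u) ^ 0 * esy 0 l = 1 := by simp [esy]
  rw [h3, Finset.sum_range, Q, add_comm]
  congr 1
  refine Finset.sum_congr rfl fun k _ => ?_
  rw [neg_pow u]
  simp only [piN]
  ring

theorem hasDerivAt_Q {n : ℕ} (z : Fin n → ℂ) (u : ℂ) : HasDerivAt (Q z) (Qd z u) u := by
  have h1 : HasDerivAt (fun u => ∑ k : Fin n, (-1) ^ ((k : ℕ) + 1) * z k * u ^ ((k : ℕ) + 1))
      (Qd z u) u := by
    unfold Qd
    refine HasDerivAt.fun_sum fun k _ => ?_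
    have h2 := (hasDerivAt_pow ((k : ℕ) + 1) u).const_mul ((-1) ^ ((k : ℕ) + 1) * z k)
    simpa using h2
  exact h1.const_add 1

theorem Q_ne {n : ℕ} {z : Fin n → ℂ} (hz : z ∈ Gn n) {u : ℂ} (hu : ‖u‖ ≤ 1) : Q z u ≠ 0 := by
  obtain ⟨l, hl, rfl⟩ := hz
  rw [Q_piN]
  refine Finset.prod_ne_zero_iff.2 fun i _ => ?_
  intro h
  have h1 : u * l i = 1 := (sub_eq_zero.1 h).symm
  have h2 : ‖u‖ * ‖l i‖ = 1 := by rw [← norm_mul, h1, norm_one]
  nlinarith [hl i, norm_nonneg u, norm_nonneg (l i)]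

/-- The magic function. -/
noncomputable def mg {n : ℕ} (w : ℂ) (z : Fin n → ℂ) : ℂ := n - 2 * w * (Qd z w / Q z w)

theorem mg_piN {n : ℕ} (l : Fin n → ℂ) (w : ℂ) (hw : ∀ i, 1 - w * l i ≠ 0) :
    mg w (piN l) = ∑ i, (1 + w * l i) / (1 - w * l i) := by
  have h1 : HasDerivAt (fun u => ∏ i, (1 - u * l i))
      (∑ i, (∏ j ∈ (Finset.univ : Finset (Fin n)).erase i, (1 - w * l j)) • (-(l i))) w := by
    refine HasDerivAt.fun_finsetProd fun i _ => ?_
    have := ((hasDerivAt_id w).mul_const (l i)).const_sub 1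
    simpa using this
  have h2 : Qd (piN l) w =
      ∑ i, (∏ j ∈ (Finset.univ : Finset (Fin n)).erase i, (1 - w * l j)) • (-(l i)) := by
    have h3 : Q (piN l) = fun u => ∏ i, (1 - u * l i) := funext (Q_piN l)
    have h4 := hasDerivAt_Q (piN l) w
    rw [h3] at h4
    exact h4.unique h1
  have h5 : Qd (piN l) w / Q (piN l) w = ∑ i, -(l i) / (1 - w * l i) := by
    rw [h2, Q_piN, Finset.sum_div]
    refine Finset.sum_congr rfl fun i _ => ?_
    rw [smul_eq_mul, ← Finset.mul_prod_erase Finset.univ _ (Finset.mem_univ i)]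
    have h6 : ∏ j ∈ (Finset.univ : Finset (Fin n)).erase i, (1 - w * l j) ≠ 0 :=
      Finset.prod_ne_zero_iff.2 fun j _ => hw j
    have h7 := hw i
    field_simp
  rw [mg, h5, Finset.mul_sum]
  have h8 : (n : ℂ) = ∑ _i : Fin n, (1 : ℂ) := by simp
  rw [h8, ← Finset.sum_sub_distrib]
  refine Finset.sum_congr rfl fun i _ => ?_
  have h7 := hw i
  field_simp
  ring

theorem differentiable_Q_left {n : ℕ} (u : ℂ) : Differentiable ℂ (fun z : Fin n → ℂ => Q z u) := by
  unfold Q
  fun_prop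

theorem differentiable_Qd_left {n : ℕ} (u : ℂ) :
    Differentiable ℂ (fun z : Fin n → ℂ => Qd z u) := by
  unfold Qd
  fun_prop

theorem contDiff_Q_left {n : ℕ} (u : ℂ) : ContDiff ℂ 1 (fun z : Fin n → ℂ => Q z u) := by
  unfold Q
  fun_prop

theorem contDiff_Qd_left {n : ℕ} (u : ℂ) : ContDiff ℂ 1 (fun z : Fin n → ℂ => Qd z u) := by
  unfold Qd
  fun_prop

theorem mg_contDiffAt {n : ℕ} (w : ℂ) {z : Fin n → ℂ} (hz : Q z w ≠ 0) :
    ContDiffAt ℂ 1 (mg (n := n) w) z := by
  unfold mg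
  refine ContDiffAt.sub contDiffAt_const (ContDiffAt.mul contDiffAt_const ?_)
  exact (contDiff_Qd_left w).contDiffAt.div (contDiff_Q_left w).contDiffAt hz

theorem mg_differentiableAt {n : ℕ} (w : ℂ) {z : Fin n → ℂ} (hz : Q z w ≠ 0) :
    DifferentiableAt ℂ (mg (n := n) w) z :=
  (mg_contDiffAt w hz).differentiableAt one_ne_zero

theorem differentiable_piN {n : ℕ} : Differentiable ℂ (piN (n := n)) := by
  rw [differentiable_pi]
  intro k
  unfold piN esy
  fun_prop

theorem mg_re_pos {n : ℕ} {w : ℂ} (hw : ‖w‖ = 1) {z : Fin n → ℂ} (hz : z ∈ Gn n) :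
    0 ≤ (mg w z).re := by
  obtain ⟨l, hl, rfl⟩ := hz
  have h1 : ∀ i, ‖w * l i‖ < 1 := fun i => by rw [norm_mul, hw, one_mul]; exact hl i
  have h2 : ∀ i, 1 - w * l i ≠ 0 := by
    intro i h
    have h3 : w * l i = 1 := (sub_eq_zero.1 h).symm
    have h4 := h1 i
    rw [h3, norm_one] at h4
    exact lt_irrefl _ h4
  rw [mg_piN l w h2, Complex.re_sum]
  exact Finset.sum_nonneg fun i _ => le_of_lt (cayley_fwd (h1 i))

/-- The polynomial with values `Q z`. -/
noncomputable def Pz {n : ℕ} (z : Fin n → ℂ) : Polynomial ℂ :=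
  1 + ∑ k : Fin n, Polynomial.C ((-1) ^ ((k : ℕ) + 1) * z k) * Polynomial.X ^ ((k : ℕ) + 1)

theorem eval_Pz {n : ℕ} (z : Fin n → ℂ) (u : ℂ) : (Pz z).eval u = Q z u := by
  unfold Pz Q
  rw [Polynomial.eval_add, Polynomial.eval_one, Polynomial.eval_finsetSum]
  simp

theorem eval_deriv_Pz {n : ℕ} (z : Fin n → ℂ) (u : ℂ) :
    (Polynomial.derivative (Pz z)).eval u = Qd z u := by
  have h1 := (Pz z).hasDerivAt u
  have h2 : (fun u => (Pz z).eval u) = Q z := funext (eval_Pz z)
  rw [h2] at h1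
  exact h1.unique (hasDerivAt_Q z u)

theorem coeff_Pz {n : ℕ} (z : Fin n → ℂ) (k : Fin n) :
    (Pz z).coeff ((k : ℕ) + 1) = (-1) ^ ((k : ℕ) + 1) * z k := by
  unfold Pz
  rw [Polynomial.coeff_add, Polynomial.coeff_one, if_neg (by omega), zero_add,
    Polynomial.finsetSum_coeff]
  rw [Finset.sum_eq_single k]
  · rw [Polynomial.coeff_C_mul_X_pow, if_pos rfl]
  · intro j _ hj
    rw [Polynomial.coeff_C_mul_X_pow, if_neg]
    intro h
    apply hj
    ext
    omega
  · intro h
    exact absurd (Finset.mem_univ k) h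

/-- The magic functions separate points. -/
theorem mg_separate {n : ℕ} {z z' : Fin n → ℂ} (hz : z ∈ Gn n) (hz' : z' ∈ Gn n) (Ω : Set ℂ)
    (hΩ : Ω.Infinite) (hΩ1 : ∀ w ∈ Ω, ‖w‖ = 1) (h : ∀ w ∈ Ω, mg w z = mg w z') : z = z' := by
  have hD : Polynomial.derivative (Pz z) * Pz z' - Polynomial.derivative (Pz z') * Pz z = 0 := by
    apply Polynomial.eq_zero_of_infinite_isRoot
    refine hΩ.mono fun w hw => ?_
    have hw1 := hΩ1 w hw
    have hw0 : w ≠ 0 := by rintro rfl; simp at hw1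
    have h1 := h w hw
    unfold mg at h1
    have h2 := Q_ne hz hw1.le
    have h3 := Q_ne hz' hw1.le
    have h4 : Qd z w / Q z w = Qd z' w / Q z' w := by
      have h5 : 2 * w * (Qd z w / Q z w) = 2 * w * (Qd z' w / Q z' w) := by
        linear_combination -h1
      exact mul_left_cancel₀ (mul_ne_zero two_ne_zero hw0) h5
    rw [div_eq_div_iff h2 h3] at h4
    show Polynomial.IsRoot _ w
    rw [Polynomial.IsRoot.def, Polynomial.eval_sub, Polynomial.eval_mul, Polynomial.eval_mul,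
      eval_Pz, eval_Pz, eval_deriv_Pz, eval_deriv_Pz, h4, sub_self]
  have hD' : ∀ u, Qd z u * Q z' u - Qd z' u * Q z u = 0 := by
    intro u
    have := congrArg (Polynomial.eval u) hD
    rwa [Polynomial.eval_sub, Polynomial.eval_mul, Polynomial.eval_mul,
      eval_Pz, eval_Pz, eval_deriv_Pz, eval_deriv_Pz, Polynomial.eval_zero] at this
  have hqd : ∀ u ∈ ball (0 : ℂ) 1, HasDerivAt (fun u => Q z u / Q z' u) 0 u := by
    intro u hu
    have h3 := Q_ne hz' (mem_ball_zero_iff.1 hu).le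
    have h4 := (hasDerivAt_Q z u).fun_div (hasDerivAt_Q z' u) h3
    have h5 : (Qd z u * Q z' u - Q z u * Qd z' u) / Q z' u ^ 2 = 0 := by
      have := hD' u
      rw [mul_comm (Q z u), this, zero_div]
    rwa [h5] at h4
  have hconst : ∀ u ∈ ball (0 : ℂ) 1, Q z u = Q z' u := by
    intro u hu
    have h1 := isOpen_ball.is_const_of_deriv_eq_zero (convex_ball (0 : ℂ) 1).isPreconnected
      (fun v hv => (hqd v hv).differentiableAt.differentiableWithinAt)
      (fun v hv => (hqd v hv).deriv) hu (mem_ball_self one_pos)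
    have h2 : Q z 0 = 1 := by simp [Q]
    have h3 : Q z' 0 = 1 := by simp [Q]
    simp only [h2, h3, div_one] at h1
    have h4 := Q_ne hz' (mem_ball_zero_iff.1 hu).le
    rwa [div_eq_one_iff_eq h4] at h1
  have hP : Pz z = Pz z' := by
    apply Polynomial.eq_of_infinite_eval_eq
    have hinf : (ball (0 : ℂ) 1).Infinite := by
      refine (convex_ball (0 : ℂ) 1).isPreconnected.infinite_of_nontrivial ?_
      exact ⟨0, mem_ball_self one_pos, 1 / 2, by simp; norm_num, by norm_num⟩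
    refine hinf.mono fun u hu => ?_
    show (Pz z).eval u = (Pz z').eval u
    rw [eval_Pz, eval_Pz]
    exact hconst u hu
  funext k
  have h1 := congrArg (fun p => Polynomial.coeff p ((k : ℕ) + 1)) hP
  simp only [coeff_Pz] at h1
  exact mul_left_cancel₀ (pow_ne_zero _ (neg_ne_zero.2 one_ne_zero)) h1

theorem closure_Gn {n : ℕ} {p : Fin n → ℂ} (hp : p ∈ closure (Gn n)) :
    ∃ ζ : Fin n → ℂ, (∀ i, ‖ζ i‖ ≤ 1) ∧ p = piN ζ := by
  have hcl : closure (Gn n) ⊆ piN '' (closedBall (0 : Fin n → ℂ) 1) := by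
    apply closure_minimal
    · rintro q ⟨l, hl, rfl⟩
      refine ⟨l, ?_, rfl⟩
      rw [mem_closedBall_zero_iff, pi_norm_le_iff_of_nonneg zero_le_one]
      exact fun i => (hl i).le
    · exact ((isCompact_closedBall _ _).image differentiable_piN.continuous).isClosed
  obtain ⟨ζ, hζ, rfl⟩ := hcl hp
  rw [mem_closedBall_zero_iff, pi_norm_le_iff_of_nonneg zero_le_one] at hζ
  exact ⟨ζ, hζ, rfl⟩

theorem infinite_good {n : ℕ} (ζ : Fin n → ℂ) :
    {w : ℂ | ‖w‖ = 1 ∧ ∀ i, 1 - w * ζ i ≠ 0}.Infinite := by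
  have h1 : (sphere (0 : ℂ) 1).Infinite := by
    have h2 : IsPreconnected (sphere (0 : ℂ) 1) := by
      apply isPreconnected_sphere
      rw [Complex.rank_real_complex]
      exact Cardinal.one_lt_two
    refine h2.infinite_of_nontrivial ⟨1, by simp, -1, by simp, ?_⟩
    intro h
    have := congrArg Complex.re h
    simp at this
    linarith
  have h3 : (Set.range fun i => (ζ i)⁻¹).Finite := Set.finite_range _
  refine (h1.sdiff h3).mono ?_
  rintro w ⟨hw1, hw2⟩
  refine ⟨by simpa using hw1, fun i hi => hw2 ⟨i, ?_⟩⟩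
  have h4 : w * ζ i = 1 := (sub_eq_zero.1 hi).symm
  exact (eq_inv_of_mul_eq_one_left h4).symm

/-- The rigidity theorem. -/
theorem rigidity {n : ℕ} {p : Fin n → ℂ} (hp : p ∈ closure (Gn n)) (F : (Fin n → ℂ) → Fin n → ℂ)
    (hF : DifferentiableOn ℂ F (Gn n)) (hm : MapsTo F (Gn n) (Gn n))
    (hBK : ∀ η : ℝ, 0 < η → ∃ δ > 0, ∀ z ∈ Gn n, ‖z - p‖ < δ → ‖F z - z‖ ≤ η * ‖z - p‖ ^ 3) :
    ∀ z ∈ Gn n, F z = z := by
  obtain ⟨ζ, hζ, rfl⟩ := closure_Gn hp
  have hmg : ∀ w : ℂ, ‖w‖ = 1 → (∀ i, 1 - w * ζ i ≠ 0) → ∀ z ∈ Gn n, mg w (F z) = mg w z := by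
    intro w hw hwζ
    have hw0 : w ≠ 0 := by rintro rfl; simp at hw
    -- the half plane coordinates
    let lam : (Fin n → ℂ) → Fin n → ℂ := fun x i => w⁻¹ * ((x i - 1) / (x i + 1))
    obtain ⟨x0, hx0⟩ : ∃ x0 : Fin n → ℂ, x0 = fun i => (1 + w * ζ i) / (1 - w * ζ i) := ⟨_, rfl⟩
    have hx0re : ∀ i, 0 ≤ (x0 i).re := by
      intro i
      rw [hx0]
      have hn : 0 < Complex.normSq (1 - w * ζ i) := Complex.normSq_pos.2 (hwζ i)
      have hle : ‖w * ζ i‖ ≤ 1 := by rw [norm_mul, hw, one_mul]; exact hζ i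
      obtain ⟨a, ha⟩ : ∃ a : ℂ, a = w * ζ i := ⟨_, rfl⟩
      show 0 ≤ ((1 + w * ζ i) / (1 - w * ζ i)).re
      rw [← ha] at hn hle ⊢
      have h2 : ((1 + a) / (1 - a)).re = (1 - ‖a‖ ^ 2) / Complex.normSq (1 - a) := by
        rw [Complex.div_re, ← Complex.normSq_eq_norm_sq, Complex.normSq_apply a]
        simp only [Complex.add_re, Complex.sub_re, Complex.one_re, Complex.add_im, Complex.sub_im,
          Complex.one_im]
        field_simp
        ring
      rw [h2]
      apply div_nonneg _ hn.le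
      nlinarith [norm_nonneg a]
    have hne1 : ∀ y : ℂ, 0 ≤ y.re → y + 1 ≠ 0 := by
      intro y hy h
      have := congrArg Complex.re h
      simp at this
      linarith
    have hlam0 : lam x0 = ζ := by
      funext i
      show w⁻¹ * ((x0 i - 1) / (x0 i + 1)) = ζ i
      rw [hx0]
      have h1 := hwζ i
      have h2 : (1 + w * ζ i) / (1 - w * ζ i) + 1 = 2 / (1 - w * ζ i) := by
        field_simp; ring
      have h3 : (1 + w * ζ i) / (1 - w * ζ i) - 1 = 2 * (w * ζ i) / (1 - w * ζ i) := by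
        field_simp; ring
      show w⁻¹ * (((1 + w * ζ i) / (1 - w * ζ i) - 1) / ((1 + w * ζ i) / (1 - w * ζ i) + 1)) = ζ i
      rw [h2, h3]
      field_simp
    have hlamm : ∀ x ∈ HH n, piN (lam x) ∈ Gn n := by
      intro x hx
      refine ⟨lam x, fun i => ?_, rfl⟩
      show ‖w⁻¹ * ((x i - 1) / (x i + 1))‖ < 1
      rw [norm_mul, norm_inv, hw, inv_one, one_mul]
      exact cayley_inv (hx i)
    have hlamd : ∀ x : Fin n → ℂ, (∀ i, 0 ≤ (x i).re) → DifferentiableAt ℂ lam x := by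
      intro x hx
      rw [differentiableAt_pi]
      intro i
      show DifferentiableAt ℂ (fun x : Fin n → ℂ => w⁻¹ * ((x i - 1) / (x i + 1))) x
      have h2 : DifferentiableAt ℂ (fun x : Fin n → ℂ => x i - 1) x := by fun_prop
      have h3 : DifferentiableAt ℂ (fun x : Fin n → ℂ => x i + 1) x := by fun_prop
      have h4 : (fun x : Fin n → ℂ => x i + 1) x ≠ 0 := hne1 _ (hx i)
      have h1 : DifferentiableAt ℂ (fun x : Fin n → ℂ => (x i - 1) / (x i + 1)) x := by
        simp only [div_eq_mul_inv]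
        exact h2.mul (DifferentiableAt.fun_inv h3 h4)
      exact h1.const_mul _
    have hkd : ∀ x : Fin n → ℂ, (∀ i, 0 ≤ (x i).re) →
        DifferentiableAt ℂ (fun x => piN (lam x)) x := fun x hx =>
      DifferentiableAt.comp x (f := lam) (differentiable_piN _) (hlamd x hx)
    have hmgx : ∀ x ∈ HH n, mg w (piN (lam x)) = ∑ i, x i := by
      intro x hx
      have h1 : ∀ i, w * lam x i = (x i - 1) / (x i + 1) := by
        intro i
        show w * (w⁻¹ * ((x i - 1) / (x i + 1))) = _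
        field_simp
      have h2 : ∀ i, x i + 1 ≠ 0 := fun i => hne1 _ (hx i).le
      have h3 : ∀ i, 1 - w * lam x i = 2 / (x i + 1) := by
        intro i
        have := h2 i
        rw [h1]
        field_simp
        ring
      rw [mg_piN]
      · refine Finset.sum_congr rfl fun i _ => ?_
        have := h2 i
        rw [h3, h1]
        field_simp
        ring
      · intro i
        rw [h3]
        exact div_ne_zero two_ne_zero (h2 i)
    have hmain := multi (fun x => mg w (F (piN (lam x)))) ?_ ?_ x0 hx0re ?_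
    · intro z hz
      obtain ⟨l, hl, rfl⟩ := hz
      have hl1 : ∀ i, ‖w * l i‖ < 1 := fun i => by rw [norm_mul, hw, one_mul]; exact hl i
      obtain ⟨x, hx⟩ : ∃ x : Fin n → ℂ, x = fun i => (1 + w * l i) / (1 - w * l i) := ⟨_, rfl⟩
      have hxH : x ∈ HH n := fun i => by rw [hx]; exact cayley_fwd (hl1 i)
      have hlx : lam x = l := by
        funext i
        show w⁻¹ * ((x i - 1) / (x i + 1)) = l i
        rw [hx]
        have h1 : 1 - w * l i ≠ 0 := by
          intro h
          have h3 : w * l i = 1 := (sub_eq_zero.1 h).symm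
          have h4 := hl1 i
          rw [h3, norm_one] at h4
          exact lt_irrefl _ h4
        have h2 : (1 + w * l i) / (1 - w * l i) + 1 = 2 / (1 - w * l i) := by
          field_simp; ring
        have h3 : (1 + w * l i) / (1 - w * l i) - 1 = 2 * (w * l i) / (1 - w * l i) := by
          field_simp; ring
        show w⁻¹ * (((1 + w * l i) / (1 - w * l i) - 1) /
          ((1 + w * l i) / (1 - w * l i) + 1)) = l i
        rw [h2, h3]
        field_simp
      have h1 := hmain x hxH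
      have h2 := hmgx x hxH
      rw [← h2, hlx] at h1
      exact h1
    · -- differentiability
      intro x hx
      have h1 : DifferentiableWithinAt ℂ F (Gn n) (piN (lam x)) := hF _ (hlamm x hx)
      have h2 : DifferentiableWithinAt ℂ (fun x => piN (lam x)) (HH n) x :=
        (hkd x (fun i => (hx i).le)).differentiableWithinAt
      have h3 : DifferentiableWithinAt ℂ (fun x => F (piN (lam x))) (HH n) x :=
        DifferentiableWithinAt.comp x (f := fun x => piN (lam x)) (g := F) h1 h2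
          (fun y hy => hlamm y hy)
      have h4 : DifferentiableAt ℂ (mg (n := n) w) (F (piN (lam x))) :=
        mg_differentiableAt w (Q_ne (hm (hlamm x hx)) hw.le)
      exact DifferentiableAt.comp_differentiableWithinAt x (f := fun x => F (piN (lam x))) h4 h3
    · intro x hx
      exact mg_re_pos hw (hm (hlamm x hx))
    · -- asymptotics
      intro η hη
      have hQp : Q (piN ζ) w ≠ 0 := by
        rw [Q_piN]
        exact Finset.prod_ne_zero_iff.2 fun i _ => hwζ i
      obtain ⟨K, t, ht, hK⟩ := (mg_contDiffAt w hQp).exists_lipschitzOnWith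
      obtain ⟨δ1, hδ1, hδt⟩ := Metric.mem_nhds_iff.1 ht
      -- the linear bound on the parametrization
      have hbig : (fun x => piN (lam x) - piN (lam x0)) =O[𝓝 x0] fun x => x - x0 :=
        (hkd x0 hx0re).isBigO_sub
      rw [hlam0] at hbig
      obtain ⟨C, hC0, hC⟩ := hbig.exists_pos
      rw [Asymptotics.isBigOWith_iff, Metric.eventually_nhds_iff] at hC
      obtain ⟨δ2, hδ2, hC⟩ := hC
      obtain ⟨δ3, hδ3, hBK'⟩ := hBK (min 1 (η / ((K + 1) * C ^ 3))) (by positivity)
      refine ⟨min δ2 (min (min (δ1 / 2) (1 / 2)) δ3 / C), by positivity, fun x hx hxδ => ?_⟩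
      have e1 : ‖x - x0‖ < δ2 := hxδ.trans_le (min_le_left _ _)
      have e2 : C * ‖x - x0‖ < min (min (δ1 / 2) (1 / 2)) δ3 := by
        have := hxδ.trans_le (min_le_right _ _)
        rw [lt_div_iff₀ hC0] at this
        linarith
      have e3 : ‖piN (lam x) - piN ζ‖ ≤ C * ‖x - x0‖ := hC (by rwa [dist_eq_norm])
      obtain ⟨z, hz⟩ : ∃ z : Fin n → ℂ, z = piN (lam x) := ⟨_, rfl⟩
      rw [← hz] at e3
      have hzG : z ∈ Gn n := by rw [hz]; exact hlamm x hx
      have e4 : ‖z - piN ζ‖ < δ1 / 2 := (e3.trans_lt e2).trans_le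
        ((min_le_left _ _).trans (min_le_left _ _))
      have e5 : ‖z - piN ζ‖ < 1 / 2 := (e3.trans_lt e2).trans_le
        ((min_le_left _ _).trans (min_le_right _ _))
      have e6 : ‖z - piN ζ‖ < δ3 := (e3.trans_lt e2).trans_le (min_le_right _ _)
      have e7 := hBK' z hzG e6
      have e8 : ‖F z - z‖ ≤ ‖z - piN ζ‖ := by
        have h1 : ‖F z - z‖ ≤ 1 * ‖z - piN ζ‖ ^ 3 :=
          e7.trans (mul_le_mul_of_nonneg_right (min_le_left _ _) (by positivity))
        have h2 : ‖z - piN ζ‖ ^ 3 ≤ ‖z - piN ζ‖ := by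
          have h3 := norm_nonneg (z - piN ζ)
          have h4 : ‖z - piN ζ‖ ^ 2 ≤ 1 := by nlinarith
          nlinarith
        linarith
      have e9 : z ∈ t := hδt (by rw [mem_ball_iff_norm]; linarith)
      have e10 : F z ∈ t := hδt (by
        rw [mem_ball_iff_norm]
        have : F z - piN ζ = (F z - z) + (z - piN ζ) := by abel
        rw [this]
        exact (norm_add_le _ _).trans_lt (by linarith))
      have e11 := hK.norm_sub_le e10 e9
      show ‖mg w (F (piN (lam x))) - ∑ i, x i‖ ≤ _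
      rw [← hmgx x hx, ← hz]
      refine e11.trans ?_
      have hK0 : (0 : ℝ) ≤ K := K.2
      calc (K : ℝ) * ‖F z - z‖ ≤ K * (η / ((K + 1) * C ^ 3) * (C * ‖x - x0‖) ^ 3) := by
            refine mul_le_mul_of_nonneg_left ?_ hK0
            refine e7.trans ?_
            exact mul_le_mul (min_le_right _ _) (pow_le_pow_left₀ (norm_nonneg _) e3 3)
              (by positivity) (by positivity)
        _ = (K / (K + 1)) * (η * ‖x - x0‖ ^ 3) := by field_simp
        _ ≤ 1 * (η * ‖x - x0‖ ^ 3) := by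
            refine mul_le_mul_of_nonneg_right ?_ (by positivity)
            rw [div_le_one (by positivity)]
            linarith
        _ = η * ‖x - x0‖ ^ 3 := one_mul _
  intro z hz
  exact mg_separate (hm hz) hz _ (infinite_good ζ) (fun w hw => hw.1)
    (fun w hw => hmg w hw.1 hw.2 z hz)

end Pool.Agent.V1172.BKn
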