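import Pool.Agent.V1172.BKn.Two

/-!
The rigidity statement for functions of several variables in the right half plane.
-/

set_option autoImplicit false

open Set Filter Topology Metric

namespace Pool.Agent.V1172.BKn

open Pool.Agent.V1172.BK

/-- The product of half planes. -/
def HH (n : ℕ) : Set (Fin n → ℂ) := {x | ∀ i, 0 < (x i).re}

theorem isOpen_HH (n : ℕ) : IsOpen (HH n) := by
  have h : HH n = ⋂ i : Fin n, {x : Fin n → ℂ | 0 < (x i).re} := by
    ext x; simp [HH]
  rw [h]
  refine isOpen_iInter_of_finite fun i => isOpen_lt continuous_const ?_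
  exact Complex.continuous_re.comp (continuous_apply i)

/-- The values on the real translates of the base point. -/
theorem multi_real {n : ℕ} [Nonempty (Fin n)] (G : (Fin n → ℂ) → ℂ)
    (hG : DifferentiableOn ℂ G (HH n))
    (hpos : ∀ x ∈ HH n, 0 ≤ (G x).re) (x0 : Fin n → ℂ) (hx0 : ∀ i, 0 ≤ (x0 i).re)
    (hlim : ∀ η : ℝ, 0 < η → ∃ δ > 0, ∀ x ∈ HH n, ‖x - x0‖ < δ →
      ‖G x - ∑ i, x i‖ ≤ η * ‖x - x0‖ ^ 3)
    (a : Fin n → ℝ) (ha : ∀ i, 0 < a i) :
    G (fun i => x0 i + a i) = ∑ i, (x0 i + a i) := by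
  obtain ⟨A, hAdef⟩ : ∃ A : ℝ, A = ∑ i, a i := ⟨_, rfl⟩
  obtain ⟨B, hBdef⟩ : ∃ B : ℝ, B = ∑ i, (x0 i).re := ⟨_, rfl⟩
  obtain ⟨τ, hτdef⟩ : ∃ τ : ℝ, τ = ∑ i, (x0 i).im := ⟨_, rfl⟩
  obtain ⟨M, hMdef⟩ : ∃ M : ℝ, M = 1 + ∑ i, (a i + (x0 i).re) := ⟨_, rfl⟩
  have hA : 0 < A := by
    rw [hAdef]
    exact Finset.sum_pos (fun i _ => ha i) Finset.univ_nonempty
  have hM : ∀ i, a i + (x0 i).re ≤ M := by
    intro i
    have h1 : a i + (x0 i).re ≤ ∑ i, (a i + (x0 i).re) :=
      Finset.single_le_sum (f := fun i => a i + (x0 i).re)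
        (fun j _ => add_nonneg (ha j).le (hx0 j)) (Finset.mem_univ i)
    rw [hMdef]; linarith
  have hM0 : 0 < M := by
    rw [hMdef]
    have : 0 ≤ ∑ i, (a i + (x0 i).re) :=
      Finset.sum_nonneg fun j _ => add_nonneg (ha j).le (hx0 j)
    linarith
  let cur : ℂ × ℂ → Fin n → ℂ := fun q i =>
    (a i : ℂ) * q.1 + Complex.I * (x0 i).im + ((x0 i).re : ℂ) * q.2
  have hcurd : Differentiable ℂ cur := by
    rw [differentiable_pi]
    intro i
    show Differentiable ℂ fun q : ℂ × ℂ =>
      (a i : ℂ) * q.1 + Complex.I * (x0 i).im + ((x0 i).re : ℂ) * q.2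
    fun_prop
  have hcurm : ∀ q ∈ (Hp ×ˢ Hp : Set (ℂ × ℂ)), cur q ∈ HH n := by
    rintro ⟨x, w⟩ ⟨hx, hw⟩ i
    have hx' : 0 < x.re := hx
    have hw' : 0 < w.re := hw
    show 0 < ((a i : ℂ) * x + Complex.I * (x0 i).im + ((x0 i).re : ℂ) * w).re
    have h1 := mul_pos (ha i) hx'
    have h2 := mul_nonneg (hx0 i) hw'.le
    simp only [Complex.add_re, Complex.mul_re, Complex.I_re, Complex.I_im,
      Complex.ofReal_re, Complex.ofReal_im]
    linarith
  have hcursub : ∀ x w : ℂ, ‖cur (x, w) - x0‖ ≤ M * (‖x‖ + ‖w - 1‖) := by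
    intro x w
    rw [pi_norm_le_iff_of_nonneg (by positivity)]
    intro i
    have h1 : (cur (x, w) - x0) i = (a i : ℂ) * x + ((x0 i).re : ℂ) * (w - 1) := by
      show (a i : ℂ) * x + Complex.I * (x0 i).im + ((x0 i).re : ℂ) * w - x0 i = _
      have h2 : x0 i = ((x0 i).re : ℂ) + Complex.I * (x0 i).im := by
        apply Complex.ext <;> simp
      linear_combination -h2
    rw [h1]
    refine (norm_add_le _ _).trans ?_
    rw [norm_mul, norm_mul, Complex.norm_real, Complex.norm_real, Real.norm_eq_abs,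
      Real.norm_eq_abs, abs_of_pos (ha i), abs_of_nonneg (hx0 i)]
    have h3 : a i ≤ M := by have := hM i; have := hx0 i; linarith
    have h4 : (x0 i).re ≤ M := by have := hM i; have := ha i; linarith
    nlinarith [norm_nonneg x, norm_nonneg (w - 1), mul_le_mul_of_nonneg_right h3 (norm_nonneg x),
      mul_le_mul_of_nonneg_right h4 (norm_nonneg (w - 1))]
  have hcursum : ∀ x w : ℂ, ∑ i, cur (x, w) i = A * x + Complex.I * τ + B * w := by
    intro x w
    show ∑ i, ((a i : ℂ) * x + Complex.I * (x0 i).im + ((x0 i).re : ℂ) * w) = _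
    rw [Finset.sum_add_distrib, Finset.sum_add_distrib, ← Finset.sum_mul, ← Finset.mul_sum,
      ← Finset.sum_mul, hAdef, hBdef, hτdef]
    push_cast
    rfl
  have hkey := claim (fun q => G (cur q) - Complex.I * τ) ?_ ?_ A B hA ?_ 1 (by simp [Hp])
  · have h1 : cur (1, 1) = fun i => x0 i + a i := by
      funext i
      show (a i : ℂ) * 1 + Complex.I * (x0 i).im + ((x0 i).re : ℂ) * 1 = _
      have h2 : x0 i = ((x0 i).re : ℂ) + Complex.I * (x0 i).im := by
        apply Complex.ext <;> simp
      linear_combination -h2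
    have h3 := hcursum 1 1
    rw [h1] at h3
    simp only [h1] at hkey
    rw [h3]
    linear_combination hkey
  · intro q hq
    have h1 : DifferentiableAt ℂ G (cur q) :=
      (hG _ (hcurm q hq)).differentiableAt ((isOpen_HH n).mem_nhds (hcurm q hq))
    have h2 : DifferentiableAt ℂ (fun q => G (cur q)) q :=
      DifferentiableAt.comp q (f := cur) h1 (hcurd q)
    exact (h2.sub_const _).differentiableWithinAt
  · intro x hx w hw
    have := hpos _ (hcurm (x, w) ⟨hx, hw⟩)
    simpa using this
  · intro η hη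
    obtain ⟨δ, hδ, h⟩ := hlim (η / M ^ 3) (by positivity)
    refine ⟨δ / (2 * M), by positivity, fun x hx w hw hxδ hwδ => ?_⟩
    have h1 : G (cur (x, w)) - Complex.I * τ - A * x - B * w =
        G (cur (x, w)) - ∑ i, cur (x, w) i := by
      rw [hcursum]; ring
    have h2 : M * (‖x‖ + ‖w - 1‖) < δ := by
      rw [lt_div_iff₀ (by positivity)] at hxδ hwδ
      linarith
    show ‖G (cur (x, w)) - Complex.I * τ - A * x - B * w‖ ≤ _
    rw [h1]
    refine (h _ (hcurm (x, w) ⟨hx, hw⟩) ((hcursub x w).trans_lt h2)).trans ?_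
    calc η / M ^ 3 * ‖cur (x, w) - x0‖ ^ 3 ≤ η / M ^ 3 * (M * (‖x‖ + ‖w - 1‖)) ^ 3 := by
          refine mul_le_mul_of_nonneg_left ?_ (by positivity)
          exact pow_le_pow_left₀ (norm_nonneg _) (hcursub x w) 3
      _ = η * (‖x‖ + ‖w - 1‖) ^ 3 := by field_simp

/-- The rigidity theorem for functions on the product of half planes. -/
theorem multi {n : ℕ} (G : (Fin n → ℂ) → ℂ) (hG : DifferentiableOn ℂ G (HH n))
    (hpos : ∀ x ∈ HH n, 0 ≤ (G x).re) (x0 : Fin n → ℂ) (hx0 : ∀ i, 0 ≤ (x0 i).re)
    (hlim : ∀ η : ℝ, 0 < η → ∃ δ > 0, ∀ x ∈ HH n, ‖x - x0‖ < δ →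
      ‖G x - ∑ i, x i‖ ≤ η * ‖x - x0‖ ^ 3) :
    ∀ x ∈ HH n, G x = ∑ i, x i := by
  rcases n.eq_zero_or_pos with rfl | hn
  · intro x hx
    obtain ⟨δ, hδ, h⟩ := hlim 1 one_pos
    have hxx : x - x0 = 0 := Subsingleton.elim _ _
    have := h x hx (by rw [hxx, norm_zero]; exact hδ)
    rw [hxx, norm_zero] at this
    have h2 : ‖G x - ∑ i, x i‖ = 0 := le_antisymm (by simpa using this) (norm_nonneg _)
    exact sub_eq_zero.1 (norm_eq_zero.1 h2)
  have : Nonempty (Fin n) := ⟨⟨0, hn⟩⟩
  have hreal := multi_real G hG hpos x0 hx0 hlim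
  have hind : ∀ S : Finset (Fin n), ∀ x ∈ HH n,
      (∀ i, i ∉ S → ∃ t : ℝ, 0 < t ∧ x i = x0 i + t) → G x = ∑ i, x i := by
    intro S
    induction S using Finset.induction_on with
    | empty =>
      intro x _ h
      have h' : ∀ i, ∃ t : ℝ, 0 < t ∧ x i = x0 i + t := fun i => h i (Finset.notMem_empty i)
      choose a ha hxa using h'
      have h1 : x = fun i => x0 i + (a i : ℂ) := funext hxa
      rw [h1]
      exact hreal a ha
    | insert j S hj ih =>
      intro x hx h
      let φ : ℂ → ℂ := fun z => G (Function.update x j z) - ∑ i, Function.update x j z i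
      have hupd : ∀ z ∈ Hp, Function.update x j z ∈ HH n := by
        intro z hz i
        by_cases hij : i = j
        · subst hij
          rw [Function.update_self]
          exact hz
        · rw [Function.update_of_ne hij]
          exact hx i
      have hupdd : Differentiable ℂ (fun z : ℂ => Function.update x j z) := by
        rw [differentiable_pi]
        intro i
        by_cases hij : i = j
        · subst hij
          simp only [Function.update_self]
          fun_prop
        · simp only [Function.update_of_ne hij]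
          fun_prop
      have hφd : DifferentiableOn ℂ φ Hp := by
        intro z hz
        have h1 : DifferentiableAt ℂ G (Function.update x j z) :=
          (hG _ (hupd z hz)).differentiableAt ((isOpen_HH n).mem_nhds (hupd z hz))
        have h2 : DifferentiableAt ℂ (fun z => G (Function.update x j z)) z :=
          DifferentiableAt.comp z (f := fun z : ℂ => Function.update x j z) h1 (hupdd z)
        have h3 : DifferentiableAt ℂ (fun z => ∑ i, Function.update x j z i) z := by
          refine DifferentiableAt.fun_sum fun i _ => ?_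
          exact (differentiable_pi.1 hupdd i) z
        exact (h2.sub h3).differentiableWithinAt
      have hφ0 : ∀ t : ℝ, 0 < t → φ (x0 j + t) = 0 := by
        intro t ht
        have hm : x0 j + (t : ℂ) ∈ Hp := by
          show 0 < (x0 j + (t : ℂ)).re
          rw [Complex.add_re, Complex.ofReal_re]
          have := hx0 j
          linarith
        have h1 := ih (Function.update x j (x0 j + t)) (hupd _ hm) ?_
        · exact sub_eq_zero.2 h1
        · intro i hi
          by_cases hij : i = j
          · subst hij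
            exact ⟨t, ht, by rw [Function.update_self]⟩
          · obtain ⟨s, hs, hxs⟩ := h i (by
              rw [Finset.mem_insert]
              push Not
              exact ⟨hij, hi⟩)
            exact ⟨s, hs, by rw [Function.update_of_ne hij]; exact hxs⟩
      have han : AnalyticOnNhd ℂ φ Hp := hφd.analyticOnNhd isOpen_Hp
      have hm1 : x0 j + 1 ∈ Hp := by
        show 0 < (x0 j + 1).re
        rw [Complex.add_re, Complex.one_re]
        have := hx0 j
        linarith
      have hfreq : ∃ᶠ z in 𝓝[≠] (x0 j + 1), φ z = 0 := by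
        rw [Filter.frequently_iff]
        intro U hU
        rw [mem_nhdsWithin] at hU
        obtain ⟨V, hV, h0V, hVU⟩ := hU
        obtain ⟨ε, hε, hεV⟩ := Metric.isOpen_iff.1 hV _ h0V
        refine ⟨x0 j + ((1 + ε / 2 : ℝ) : ℂ), hVU ⟨hεV ?_, ?_⟩, hφ0 _ (by positivity)⟩
        · rw [mem_ball_iff_norm]
          have : x0 j + ((1 + ε / 2 : ℝ) : ℂ) - (x0 j + 1) = ((ε / 2 : ℝ) : ℂ) := by
            push_cast; ring
          rw [this, Complex.norm_real, Real.norm_eq_abs, abs_of_pos (by positivity)]
          linarith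
        · intro h'
          have h'' : x0 j + ((1 + ε / 2 : ℝ) : ℂ) = x0 j + 1 := h'
          have h3 := add_left_cancel h''
          have h4 : (1 + ε / 2 : ℝ) = 1 := by exact_mod_cast h3
          linarith
      have hz := han.eqOn_zero_of_preconnected_of_frequently_eq_zero
        convex_Hp.isPreconnected hm1 hfreq (hx j : x j ∈ Hp)
      have hz' : G (Function.update x j (x j)) - ∑ i, Function.update x j (x j) i = 0 := hz
      rw [Function.update_eq_self] at hz'
      exact sub_eq_zero.1 hz'
  intro x hx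
  exact hind Finset.univ x hx (fun i hi => absurd (Finset.mem_univ i) hi)

end Pool.Agent.V1172.BKn
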