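import Pool.Agent.V1172.BKn.Claim
import Pool.Agent.V1172.BK.Transfer

/-!
The two variable rigidity statement.
-/

set_option autoImplicit false

open Set Filter Topology Metric

namespace Pool.Agent.V1172.BKn

open Pool.Agent.V1172.BK

/-- The Schwarz–Pick inequality at `1` in the right half plane. -/
theorem schwarz_pick (u : ℂ → ℂ) (hu : DifferentiableOn ℂ u Hp)
    (hpos : ∀ z ∈ Hp, 0 ≤ (u z).re) : ‖deriv u 1‖ ≤ (u 1).re := by
  have h1m : (1 : ℂ) ∈ Hp := by simp [Hp]
  have key : ∀ ε : ℝ, 0 < ε → ‖deriv u 1‖ ≤ (u 1).re + ε := by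
    intro ε hε
    have hc : 0 < (u 1 + (ε : ℂ)).re := by
      have := hpos 1 h1m
      simp only [Complex.add_re, Complex.ofReal_re]
      linarith
    let φ : ℂ → ℂ := fun ζ => (1 + ζ) / (1 - ζ)
    have hφ : ∀ ζ ∈ ball (0 : ℂ) 1, φ ζ ∈ Hp := fun ζ hζ =>
      cayley_fwd (mem_ball_zero_iff.1 hζ)
    have hφ0 : φ 0 = 1 := by simp [φ]
    have h1ζ : ∀ ζ ∈ ball (0 : ℂ) 1, (1 : ℂ) - ζ ≠ 0 := by
      intro ζ hζ h
      rw [mem_ball_zero_iff] at hζ
      have : ζ = 1 := (sub_eq_zero.1 h).symm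
      rw [this] at hζ
      simp at hζ
    let h : ℂ → ℂ := fun ζ => ((u (φ ζ) + ε) - (u 1 + ε)) /
      ((u (φ ζ) + ε) + (starRingEnd ℂ) (u 1 + ε))
    have hne2 : ∀ ζ ∈ ball (0 : ℂ) 1, (u (φ ζ) + ε) + (starRingEnd ℂ) (u 1 + ε) ≠ 0 := by
      intro ζ hζ
      refine add_conj_ne ?_ hc
      have := hpos _ (hφ ζ hζ)
      simp only [Complex.add_re, Complex.ofReal_re]
      linarith
    have hcomp : ∀ ζ ∈ ball (0 : ℂ) 1, DifferentiableAt ℂ (fun ζ => u (φ ζ)) ζ := by
      intro ζ hζ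
      have hgd : DifferentiableAt ℂ u (φ ζ) :=
        (hu _ (hφ ζ hζ)).differentiableAt (isOpen_Hp.mem_nhds (hφ ζ hζ))
      have hφd' : DifferentiableAt ℂ φ ζ := by
        show DifferentiableAt ℂ (fun ζ => (1 + ζ) / (1 - ζ)) ζ
        exact DifferentiableAt.fun_div (by fun_prop) (by fun_prop) (h1ζ ζ hζ)
      exact hgd.comp ζ hφd'
    have hhd : DifferentiableOn ℂ h (ball 0 1) := by
      intro ζ hζ
      exact (DifferentiableAt.fun_div (((hcomp ζ hζ).add_const _).sub_const _)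
        (((hcomp ζ hζ).add_const _).add_const _) (hne2 ζ hζ)).differentiableWithinAt
    have hh0 : h 0 = 0 := by simp [h, hφ0]
    have hmaps : MapsTo h (ball 0 1) (closedBall (h 0) 1) := by
      intro ζ hζ
      rw [hh0, mem_closedBall_zero_iff]
      simp only [h]
      rw [norm_div, div_le_one (norm_pos_iff.2 (hne2 ζ hζ))]
      apply le_of_sq_le_sq _ (norm_nonneg _)
      rw [normSq_sub_add]
      have h1 : 0 ≤ (u (φ ζ) + (ε : ℂ)).re := by
        have := hpos _ (hφ ζ hζ)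
        simp only [Complex.add_re, Complex.ofReal_re]
        linarith
      have : 0 ≤ 4 * (u (φ ζ) + (ε : ℂ)).re * (u 1 + (ε : ℂ)).re := by positivity
      linarith
    have hS := Complex.norm_deriv_le_div_of_mapsTo_ball hhd hmaps one_pos
    rw [div_one] at hS
    -- the derivative of `h`
    have hu1 : HasDerivAt u (deriv u 1) (φ 0) := by
      rw [hφ0]
      exact ((hu 1 h1m).differentiableAt (isOpen_Hp.mem_nhds h1m)).hasDerivAt
    have hφ1 : HasDerivAt φ 2 0 := by
      have e1 : HasDerivAt (fun ζ : ℂ => 1 + ζ) 1 0 := (hasDerivAt_id (0 : ℂ)).const_add 1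
      have e2 : HasDerivAt (fun ζ : ℂ => 1 - ζ) (-1) 0 := (hasDerivAt_id (0 : ℂ)).const_sub 1
      have e3 := e1.fun_div e2 (by simp)
      have hval : ((1 : ℂ) * (1 - 0) - (1 + 0) * (-1)) / (1 - 0) ^ 2 = 2 := by norm_num
      rw [hval] at e3
      exact e3
    have hcmp : HasDerivAt (fun ζ => u (φ ζ)) (deriv u 1 * 2) 0 := hu1.comp 0 hφ1
    have hN : HasDerivAt (fun ζ => (u (φ ζ) + ε) - (u 1 + ε)) (deriv u 1 * 2) 0 :=
      (hcmp.add_const _).sub_const _
    have hD : HasDerivAt (fun ζ => (u (φ ζ) + ε) + (starRingEnd ℂ) (u 1 + ε)) (deriv u 1 * 2) 0 :=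
      (hcmp.add_const _).add_const _
    have hq := hN.fun_div hD (hne2 0 (mem_ball_self one_pos))
    have hqd : deriv h 0 = deriv u 1 / ((u 1).re + ε : ℝ) := by
      have e1 : (u (φ 0) + ε) + (starRingEnd ℂ) (u 1 + ε) = ((2 * ((u 1).re + ε) : ℝ) : ℂ) := by
        rw [hφ0, Complex.add_conj]
        simp
      have e2 : (u (φ 0) + ε) - (u 1 + ε) = 0 := by rw [hφ0]; ring
      have e3 := hq.deriv
      rw [e1, e2] at e3
      have e4 : ((((u 1).re + ε : ℝ)) : ℂ) ≠ 0 := by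
        have : (u 1).re + ε ≠ 0 := by
          simp only [Complex.add_re, Complex.ofReal_re] at hc
          exact hc.ne'
        exact_mod_cast this
      show deriv (fun ζ => ((u (φ ζ) + ε) - (u 1 + ε)) /
        ((u (φ ζ) + ε) + (starRingEnd ℂ) (u 1 + ε))) 0 = _
      rw [e3]
      push_cast at e4 ⊢
      field_simp
      ring
    have hpos2 : 0 < (u 1).re + ε := by
      simpa only [Complex.add_re, Complex.ofReal_re] using hc
    rw [hqd, norm_div, Complex.norm_real, Real.norm_eq_abs, abs_of_pos hpos2,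
      div_le_one hpos2] at hS
    exact hS
  exact le_of_forall_pos_le_add key

/-- The rigidity theorem for functions of two variables. -/
theorem claim (g : ℂ × ℂ → ℂ) (hg : DifferentiableOn ℂ g (Hp ×ˢ Hp))
    (hpos : ∀ x ∈ Hp, ∀ w ∈ Hp, 0 ≤ (g (x, w)).re) (A B : ℝ) (hA : 0 < A)
    (hlim : ∀ η : ℝ, 0 < η → ∃ δ > 0, ∀ x ∈ Hp, ∀ w ∈ Hp, ‖x‖ < δ → ‖w - 1‖ < δ →
      ‖g (x, w) - A * x - B * w‖ ≤ η * (‖x‖ + ‖w - 1‖) ^ 3) :
    ∀ x ∈ Hp, g (x, 1) = A * x + B := by
  have h1m : (1 : ℂ) ∈ Hp := by simp [Hp]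
  have hopen : IsOpen (Hp ×ˢ Hp : Set (ℂ × ℂ)) := isOpen_Hp.prod isOpen_Hp
  have hgat : ∀ x ∈ Hp, ∀ w ∈ Hp, DifferentiableAt ℂ g (x, w) := fun x hx w hw =>
    (hg _ ⟨hx, hw⟩).differentiableAt (hopen.mem_nhds ⟨hx, hw⟩)
  let e0 : ℂ → ℂ := fun x => g (x, 1) - A * x - B
  let m : ℂ → ℂ := fun x => fderiv ℂ g (x, 1) (0, 1)
  let α : ℂ → ℂ := fun x => m x - B
  have hline : ∀ x ∈ Hp, HasDerivAt (fun x => g (x, 1)) (fderiv ℂ g (x, 1) (1, 0)) x := by
    intro x hx
    have h1 : HasDerivAt (fun x : ℂ => (x, (1 : ℂ))) ((1, 0) : ℂ × ℂ) x :=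
      (hasDerivAt_id x).prodMk (hasDerivAt_const x 1)
    exact (hgat x hx 1 h1m).hasFDerivAt.comp_hasDerivAt x h1
  have hline2 : ∀ x ∈ Hp, HasDerivAt (fun w => g (x, w)) (m x) 1 := by
    intro x hx
    have h1 : HasDerivAt (fun w : ℂ => (x, w)) ((0, 1) : ℂ × ℂ) 1 :=
      (hasDerivAt_const (1 : ℂ) x).prodMk (hasDerivAt_id 1)
    exact (hgat x hx 1 h1m).hasFDerivAt.comp_hasDerivAt 1 h1
  have he0der : ∀ x ∈ Hp, HasDerivAt e0 (fderiv ℂ g (x, 1) (1, 0) - A) x := by
    intro x hx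
    have h2 : HasDerivAt (fun x : ℂ => (A : ℂ) * x) A x := by
      have := (hasDerivAt_id x).const_mul (A : ℂ)
      simpa using this
    exact ((hline x hx).sub h2).sub_const _
  have he0d : DifferentiableOn ℂ e0 Hp := fun x hx =>
    (he0der x hx).differentiableAt.differentiableWithinAt
  have hmd : DifferentiableOn ℂ m Hp := by
    intro x hx
    have h1 := Pool.Agent.Helper540.differentiableOn_fderiv_apply hopen hg ((0, 1) : ℂ × ℂ)
    have h2 : DifferentiableAt ℂ (fun q => fderiv ℂ g q ((0, 1) : ℂ × ℂ)) (x, (1 : ℂ)) :=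
      (h1 _ ⟨hx, h1m⟩).differentiableAt (hopen.mem_nhds ⟨hx, h1m⟩)
    have h3 : DifferentiableAt ℂ (fun x : ℂ => (x, (1 : ℂ))) x := by fun_prop
    exact (DifferentiableAt.comp x (f := fun x : ℂ => (x, (1 : ℂ))) h2 h3).differentiableWithinAt
  have hαd : DifferentiableOn ℂ α Hp := hmd.sub_const _
  -- the first Schwarz–Pick inequality
  have hSP1 : ∀ x ∈ Hp, (α x).re ≤ A * x.re + (e0 x).re := by
    intro x hx
    have h1 := schwarz_pick (fun w => g (x, w)) ?_ (hpos x hx)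
    · rw [(hline2 x hx).deriv] at h1
      have h2 := (Complex.re_le_norm (m x)).trans h1
      simp only [α, e0, Complex.sub_re, Complex.ofReal_re, Complex.re_ofReal_mul]
      linarith
    · intro w hw
      have h3 : DifferentiableAt ℂ (fun w : ℂ => (x, w)) w := by fun_prop
      exact (DifferentiableAt.comp w (f := fun w : ℂ => (x, w)) (hgat x hx w hw)
        h3).differentiableWithinAt
  -- the second Schwarz–Pick inequality
  have hSP2 : ∀ x ∈ Hp, (α x).re ≤ (e0 x).re - x.re * (deriv e0 x).re := by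
    intro x hx
    have hx' : 0 < x.re := hx
    have hcur : ∀ t ∈ Hp, (x.re : ℂ) * t + Complex.I * x.im ∈ Hp := by
      intro t ht
      have ht' : 0 < t.re := ht
      show 0 < ((x.re : ℂ) * t + Complex.I * x.im).re
      simp
      positivity
    have hcur1 : (x.re : ℂ) * 1 + Complex.I * x.im = x := by
      apply Complex.ext <;> simp
    have h1 := schwarz_pick (fun t => g ((x.re : ℂ) * t + Complex.I * x.im, t)) ?_
      (fun t ht => hpos _ (hcur t ht) t ht)
    · have h2 : HasDerivAt (fun t : ℂ => ((x.re : ℂ) * t + Complex.I * x.im, t))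
          (((x.re : ℂ), 1) : ℂ × ℂ) 1 := by
        have e1 : HasDerivAt (fun t : ℂ => (x.re : ℂ) * t + Complex.I * x.im) (x.re : ℂ) 1 := by
          have := ((hasDerivAt_id (1 : ℂ)).const_mul (x.re : ℂ)).add_const (Complex.I * x.im)
          simpa using this
        exact e1.prodMk (hasDerivAt_id 1)
      have h3 : HasFDerivAt g (fderiv ℂ g (x, 1))
          ((fun t : ℂ => ((x.re : ℂ) * t + Complex.I * x.im, t)) 1) := by
        simp only [hcur1]
        exact (hgat x hx 1 h1m).hasFDerivAt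
      have h4 := HasFDerivAt.comp_hasDerivAt (l := g)
        (f := fun t : ℂ => ((x.re : ℂ) * t + Complex.I * x.im, t)) (1 : ℂ) h3 h2
      have h5 : deriv (fun t => g ((x.re : ℂ) * t + Complex.I * x.im, t)) 1 =
          fderiv ℂ g (x, 1) ((x.re : ℂ), 1) := h4.deriv
      rw [h5] at h1
      simp only [hcur1] at h1
      have h6 : fderiv ℂ g (x, 1) ((x.re : ℂ), 1) =
          (x.re : ℂ) * fderiv ℂ g (x, 1) (1, 0) + m x := by
        have : (((x.re : ℂ), 1) : ℂ × ℂ) = (x.re : ℂ) • ((1, 0) : ℂ × ℂ) + (0, 1) := by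
          ext <;> simp
        rw [this, map_add, map_smul]
        rfl
      rw [h6] at h1
      have h7 := (Complex.re_le_norm _).trans h1
      rw [Complex.add_re, Complex.re_ofReal_mul] at h7
      rw [(he0der x hx).deriv]
      simp only [α, e0, Complex.sub_re, Complex.ofReal_re, Complex.re_ofReal_mul]
      linarith
    · intro t ht
      have h3 : DifferentiableAt ℂ
          (fun t : ℂ => ((x.re : ℂ) * t + Complex.I * x.im, t)) t := by fun_prop
      exact (DifferentiableAt.comp t (f := fun t : ℂ => ((x.re : ℂ) * t + Complex.I * x.im, t))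
        (hgat _ (hcur t ht) t ht) h3).differentiableWithinAt
  -- estimates
  have hE1 : ∀ η : ℝ, 0 < η → ∃ δ > 0, ∀ x ∈ Hp, ‖x‖ < δ → ‖e0 x‖ ≤ η * ‖x‖ ^ 3 := by
    intro η hη
    obtain ⟨δ, hδ, h⟩ := hlim η hη
    refine ⟨δ, hδ, fun x hx hxδ => ?_⟩
    have := h x hx 1 h1m hxδ (by simpa using hδ)
    simpa [e0] using this
  have hE2 : ∀ η : ℝ, 0 < η → ∃ δ > 0, ∀ x ∈ Hp, ‖x‖ < δ →
      x.re * ‖deriv e0 x‖ ≤ η * ‖x‖ ^ 3 := by
    intro η hη
    obtain ⟨δ, hδ, h⟩ := hE1 (η / 16) (by positivity)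
    refine ⟨δ / 2, by positivity, fun x hx hxδ => ?_⟩
    have hx' : 0 < x.re := hx
    have hxn : x.re ≤ ‖x‖ := Complex.re_le_norm x
    have hb : ∀ z ∈ ball x x.re, z ∈ Hp ∧ ‖z‖ ≤ 2 * ‖x‖ := by
      intro z hz
      rw [mem_ball_iff_norm] at hz
      constructor
      · have h1 : (x - z).re ≤ ‖z - x‖ := by
          rw [norm_sub_rev]; exact Complex.re_le_norm _
        rw [Complex.sub_re] at h1
        show 0 < z.re
        linarith
      · have h1 : ‖z‖ ≤ ‖z - x‖ + ‖x‖ := by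
          have := norm_add_le (z - x) x
          simpa using this
        linarith
    have hsub : ball x x.re ⊆ Hp := fun z hz => (hb z hz).1
    have hmaps : MapsTo e0 (ball x x.re) (closedBall (e0 x) (η * ‖x‖ ^ 3)) := by
      intro z hz
      rw [mem_closedBall_iff_norm]
      have h1 := h z (hb z hz).1 (by linarith [(hb z hz).2])
      have h2 := h x hx (by linarith [norm_nonneg x])
      have h3 : ‖z‖ ^ 3 ≤ (2 * ‖x‖) ^ 3 := pow_le_pow_left₀ (norm_nonneg _) (hb z hz).2 3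
      have h4 : (2 * ‖x‖) ^ 3 = 8 * ‖x‖ ^ 3 := by ring
      have h5 : 0 ≤ ‖x‖ ^ 3 := by positivity
      refine (norm_sub_le _ _).trans ?_
      nlinarith
    have h1 := Complex.norm_deriv_le_div_of_mapsTo_ball (he0d.mono hsub) hmaps hx'
    rw [le_div_iff₀ hx'] at h1
    linarith
  have hE3 : ∀ η : ℝ, 0 < η → ∃ δ > 0, ∀ x ∈ Hp, ‖x‖ < δ → ‖α x‖ ≤ η * ‖x‖ ^ 2 := by
    intro η hη
    obtain ⟨δ, hδ, h⟩ := hlim (η / 16) (by positivity)
    refine ⟨min δ 1, lt_min hδ one_pos, fun x hx hxδ => ?_⟩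
    have hx1 : ‖x‖ < 1 := hxδ.trans_le (min_le_right _ _)
    have hx2 : ‖x‖ < δ := hxδ.trans_le (min_le_left _ _)
    have hx0 : 0 < ‖x‖ := norm_pos_iff.2 (ne_zero_of_mem hx)
    have hb : ∀ w ∈ ball (1 : ℂ) ‖x‖, w ∈ Hp := by
      intro w hw
      rw [mem_ball_iff_norm] at hw
      have h1 : (1 - w).re ≤ ‖w - 1‖ := by
        rw [norm_sub_rev]; exact Complex.re_le_norm _
      rw [Complex.sub_re, Complex.one_re] at h1
      show 0 < w.re
      linarith
    let R : ℂ → ℂ := fun w => g (x, w) - A * x - B * w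
    have hRat : ∀ w ∈ Hp, DifferentiableAt ℂ R w := by
      intro w hw
      have h3 : DifferentiableAt ℂ (fun w : ℂ => (x, w)) w := by fun_prop
      have h4 : DifferentiableAt ℂ (fun w : ℂ => g (x, w)) w :=
        DifferentiableAt.comp w (f := fun w : ℂ => (x, w)) (hgat x hx w hw) h3
      exact (h4.sub_const _).sub (by fun_prop)
    have hRbound : ∀ w ∈ ball (1 : ℂ) ‖x‖, ‖R w‖ ≤ η / 2 * ‖x‖ ^ 3 := by
      intro w hw
      have hw' := hw
      rw [mem_ball_iff_norm] at hw'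
      have h1 := h x hx w (hb w hw) hx2 (hw'.trans hx2)
      refine h1.trans ?_
      calc η / 16 * (‖x‖ + ‖w - 1‖) ^ 3 ≤ η / 16 * (2 * ‖x‖) ^ 3 := by
            refine mul_le_mul_of_nonneg_left ?_ (by positivity)
            exact pow_le_pow_left₀ (by positivity) (by linarith) 3
        _ = η / 2 * ‖x‖ ^ 3 := by ring
    have hmaps : MapsTo R (ball 1 ‖x‖) (closedBall (R 1) (η * ‖x‖ ^ 3)) := by
      intro w hw
      rw [mem_closedBall_iff_norm]
      refine (norm_sub_le _ _).trans ?_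
      have h1 := hRbound w hw
      have h2 := hRbound 1 (mem_ball_self hx0)
      linarith
    have h1 := Complex.norm_deriv_le_div_of_mapsTo_ball
      (fun w hw => (hRat w (hb w hw)).differentiableWithinAt) hmaps hx0
    have h2 : deriv R 1 = α x := by
      have e1 : HasDerivAt (fun w : ℂ => (B : ℂ) * w) B 1 := by
        have := (hasDerivAt_id (1 : ℂ)).const_mul (B : ℂ)
        simpa using this
      exact (((hline2 x hx).sub_const _).sub e1).deriv
    rw [h2] at h1
    refine h1.trans (le_of_eq ?_)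
    field_simp
  have hup : ∀ η : ℝ, 0 < η → ∃ δ > 0, ∀ x ∈ Hp, ‖x‖ < δ → (α x).re ≤ η * ‖x‖ ^ 3 := by
    intro η hη
    obtain ⟨δ1, hδ1, h1⟩ := hE1 (η / 2) (by positivity)
    obtain ⟨δ2, hδ2, h2⟩ := hE2 (η / 2) (by positivity)
    refine ⟨min δ1 δ2, lt_min hδ1 hδ2, fun x hx hxδ => ?_⟩
    have hx' : 0 < x.re := hx
    have e1 := h1 x hx (hxδ.trans_le (min_le_left _ _))
    have e2 := h2 x hx (hxδ.trans_le (min_le_right _ _))
    have e3 := hSP2 x hx
    have e4 := Complex.re_le_norm (e0 x)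
    have e5 : -(x.re * (deriv e0 x).re) ≤ x.re * ‖deriv e0 x‖ := by
      have e6 : -(deriv e0 x).re ≤ ‖deriv e0 x‖ :=
        (neg_le_abs _).trans (Complex.abs_re_le_norm _)
      have := mul_le_mul_of_nonneg_left e6 hx'.le
      linarith
    linarith
  have hlow : ∀ η : ℝ, 0 < η → ∃ δ > 0, ∀ r : ℝ, 0 < r → r < δ → -(α r).re ≤ η * r ^ 3 := by
    intro η hη
    obtain ⟨δ, hδ, h⟩ := hup (η / 4) (by positivity)
    refine ⟨δ / 2, by positivity, fun r hr hrδ => ?_⟩
    have h1 := tangent α hαd (η / 4) δ (by positivity) h ?_ r hr (by linarith)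
    · linarith
    · intro ε hε
      obtain ⟨δ', hδ', h'⟩ := hE3 ε hε
      refine ⟨min δ' 1, lt_min hδ' one_pos, fun s hs hsδ => ?_⟩
      have hsn : ‖(s : ℂ)‖ = s := by rw [Complex.norm_real, Real.norm_eq_abs, abs_of_pos hs]
      have h2 := h' s (ofReal_mem hs) (by rw [hsn]; exact hsδ.trans_le (min_le_left _ _))
      rw [hsn] at h2
      refine (Complex.abs_re_le_norm _).trans (h2.trans ?_)
      have hs1 : s < 1 := hsδ.trans_le (min_le_right _ _)
      have : s ^ 2 ≤ s := by nlinarith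
      exact mul_le_mul_of_nonneg_left this hε.le
  -- the one variable theorem
  have hE : ∀ x ∈ Hp, A * x + e0 x - α x = A * x := by
    refine bk_half (fun x => A * x + e0 x - α x) ?_ ?_ A hA ?_ ?_
    · refine DifferentiableOn.sub (DifferentiableOn.add ?_ he0d) hαd
      fun_prop
    · intro x hx
      have := hSP1 x hx
      simp only [Complex.sub_re, Complex.add_re, Complex.re_ofReal_mul]
      linarith
    · intro ε hε
      obtain ⟨δ1, hδ1, h1⟩ := hE1 (ε / 2) (by positivity)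
      obtain ⟨δ2, hδ2, h2⟩ := hup (ε / 2) (by positivity)
      refine ⟨min δ1 δ2, lt_min hδ1 hδ2, fun r hr hrδ => ?_⟩
      have hrn : ‖(r : ℂ)‖ = r := by rw [Complex.norm_real, Real.norm_eq_abs, abs_of_pos hr]
      have e1 := h1 r (ofReal_mem hr) (by rw [hrn]; exact hrδ.trans_le (min_le_left _ _))
      have e2 := h2 r (ofReal_mem hr) (by rw [hrn]; exact hrδ.trans_le (min_le_right _ _))
      rw [hrn] at e1 e2
      have e3 : -(e0 r).re ≤ ‖e0 r‖ := (neg_le_abs _).trans (Complex.abs_re_le_norm _)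
      simp only [Complex.sub_re, Complex.add_re, Complex.re_ofReal_mul, Complex.ofReal_re]
      linarith
    · intro ε hε
      obtain ⟨δ1, hδ1, h1⟩ := hE1 (ε / 2) (by positivity)
      obtain ⟨δ2, hδ2, h2⟩ := hE3 (ε / 2) (by positivity)
      refine ⟨min (min δ1 δ2) 1, lt_min (lt_min hδ1 hδ2) one_pos, fun r hr hrδ => ?_⟩
      have hrn : ‖(r : ℂ)‖ = r := by rw [Complex.norm_real, Real.norm_eq_abs, abs_of_pos hr]
      have e1 := h1 r (ofReal_mem hr)
        (by rw [hrn]; exact hrδ.trans_le ((min_le_left _ _).trans (min_le_left _ _)))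
      have e2 := h2 r (ofReal_mem hr)
        (by rw [hrn]; exact hrδ.trans_le ((min_le_left _ _).trans (min_le_right _ _)))
      rw [hrn] at e1 e2
      have hr1 : r < 1 := hrδ.trans_le (min_le_right _ _)
      have e3 : r ^ 3 ≤ r ^ 2 := by nlinarith [sq_nonneg r]
      have e4 : (A : ℂ) * r + e0 r - α r - A * r = e0 r - α r := by ring
      rw [e4]
      refine (norm_sub_le _ _).trans ?_
      have e5 : ε / 2 * r ^ 3 ≤ ε / 2 * r ^ 2 := mul_le_mul_of_nonneg_left e3 (by positivity)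
      linarith
  have hαe : ∀ x ∈ Hp, α x = e0 x := by
    intro x hx
    have := hE x hx
    linear_combination -this
  -- the derivative of `e0` vanishes
  have hder : ∀ x ∈ Hp, deriv e0 x = 0 := by
    have hdd : DifferentiableOn ℂ (deriv e0) Hp := he0d.deriv isOpen_Hp
    have h1 := rigid (fun y => -deriv e0 y⁻¹) ?_ ?_ ?_
    · intro x hx
      have h2 := h1 x⁻¹ (inv_mem hx)
      simp only [inv_inv] at h2
      exact neg_eq_zero.1 h2
    · intro y hy
      have e1 : DifferentiableAt ℂ (fun y : ℂ => y⁻¹) y :=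
        DifferentiableAt.fun_inv (by fun_prop) (ne_zero_of_mem hy)
      have e2 : DifferentiableAt ℂ (deriv e0) y⁻¹ :=
        (hdd _ (inv_mem hy)).differentiableAt (isOpen_Hp.mem_nhds (inv_mem hy))
      have e3 : DifferentiableAt ℂ (fun y : ℂ => deriv e0 y⁻¹) y :=
        DifferentiableAt.comp y (f := fun y : ℂ => y⁻¹) e2 e1
      exact e3.neg.differentiableWithinAt
    · intro y hy
      have hx := inv_mem hy
      have hx' : 0 < (y⁻¹).re := hx
      have h2 := hSP2 _ hx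
      rw [hαe _ hx] at h2
      show 0 ≤ (-deriv e0 y⁻¹).re
      rw [Complex.neg_re]
      by_contra hneg
      push Not at hneg
      have : 0 < (y⁻¹).re * (deriv e0 y⁻¹).re := mul_pos hx' (by linarith)
      linarith
    · rw [Metric.tendsto_atTop]
      intro ε hε
      obtain ⟨δ, hδ, h⟩ := hE2 (ε / 2) (by positivity)
      refine ⟨max 1 (2 / δ), fun r hr => ?_⟩
      have hr1 : 1 ≤ r := (le_max_left _ _).trans hr
      have hr2 : 2 / δ ≤ r := (le_max_right _ _).trans hr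
      have hr0 : 0 < r := by linarith
      have h4 : r⁻¹ < δ := by
        rw [div_le_iff₀ hδ] at hr2
        rw [inv_lt_iff_one_lt_mul₀ hr0]
        linarith
      have hrn : ‖((r⁻¹ : ℝ) : ℂ)‖ = r⁻¹ := by
        rw [Complex.norm_real, Real.norm_eq_abs, abs_of_pos (by positivity)]
      have h5 := h ((r⁻¹ : ℝ) : ℂ) (ofReal_mem (by positivity)) (by rw [hrn]; exact h4)
      rw [hrn, Complex.ofReal_re, Complex.ofReal_inv] at h5
      rw [dist_zero_right, norm_mul, norm_norm, norm_neg, Real.norm_eq_abs, abs_of_pos hr0]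
      have h6 : ‖deriv e0 (r : ℂ)⁻¹‖ ≤ ε / 2 * r⁻¹ ^ 2 := by
        have h7 : r⁻¹ * ‖deriv e0 (r : ℂ)⁻¹‖ ≤ r⁻¹ * (ε / 2 * r⁻¹ ^ 2) := by
          refine h5.trans (le_of_eq ?_)
          ring
        exact le_of_mul_le_mul_left h7 (by positivity)
      calc r * ‖deriv e0 (r : ℂ)⁻¹‖ ≤ r * (ε / 2 * r⁻¹ ^ 2) :=
            mul_le_mul_of_nonneg_left h6 hr0.le
        _ = ε / 2 / r := by field_simp
        _ ≤ ε / 2 := div_le_self (by positivity) hr1
        _ < ε := by linarith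
  have hconst : ∀ x ∈ Hp, ∀ y ∈ Hp, e0 x = e0 y := fun x hx y hy =>
    isOpen_Hp.is_const_of_deriv_eq_zero convex_Hp.isPreconnected he0d hder hx hy
  intro x hx
  have hz : e0 x = 0 := by
    by_contra hne
    have hn : 0 < ‖e0 x‖ := norm_pos_iff.2 hne
    obtain ⟨δ, hδ, h⟩ := hE1 (‖e0 x‖ / 2) (by positivity)
    obtain ⟨r, hr0, hrδ, hr1⟩ : ∃ r : ℝ, 0 < r ∧ r < δ ∧ r < 1 :=
      ⟨min δ 1 / 2, by positivity, by
        have := min_le_left δ 1
        have : 0 < min δ 1 := lt_min hδ one_pos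
        linarith, by
        have := min_le_right δ 1
        have : 0 < min δ 1 := lt_min hδ one_pos
        linarith⟩
    have hrn : ‖(r : ℂ)‖ = r := by rw [Complex.norm_real, Real.norm_eq_abs, abs_of_pos hr0]
    have h1 := h r (ofReal_mem hr0) (by rw [hrn]; exact hrδ)
    rw [hrn, ← hconst x hx r (ofReal_mem hr0)] at h1
    have h2 : r ^ 3 ≤ 1 := pow_le_one₀ hr0.le hr1.le
    nlinarith
  have : g (x, 1) - A * x - B = 0 := hz
  linear_combination this

end Pool.Agent.V1172.BKn
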